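import Mathlib

set_option autoImplicit false

namespace Pool.Agent.H16.ND
open MeasureTheory

/-- differentiation of a parametric integral over a fixed interval -/
lemma param_deriv (f f1 : ℝ → ℝ → ℝ) (hf : Continuous (Function.uncurry f))
    (hf1 : Continuous (Function.uncurry f1))
    (hd : ∀ y x, HasDerivAt (fun y => f y x) (f1 y x) y) (c d y0 : ℝ) :
    HasDerivAt (fun y => ∫ x in c..d, f y x) (∫ x in c..d, f1 y0 x) y0 := by
  have hcF : ∀ y : ℝ, Continuous (fun x : ℝ => f y x) := fun y => by
    exact hf.comp (by fun_prop : Continuous fun x : ℝ => (y, x))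
  have hcF1 : ∀ y : ℝ, Continuous (fun x : ℝ => f1 y x) := fun y => by
    exact hf1.comp (by fun_prop : Continuous fun x : ℝ => (y, x))
  obtain ⟨M, hM⟩ := (isCompact_Icc.prod isCompact_uIcc).exists_bound_of_continuousOn
    (s := Set.Icc (y0 - 1) (y0 + 1) ×ˢ Set.uIcc c d) hf1.continuousOn
  have key := intervalIntegral.hasDerivAt_integral_of_dominated_loc_of_deriv_le (𝕜 := ℝ)
    (μ := volume) (F := f) (F' := f1) (x₀ := y0)
    (s := Metric.ball y0 1) (bound := fun _ => M) (a := c) (b := d)
    (Metric.ball_mem_nhds y0 one_pos)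
    (Filter.Eventually.of_forall fun y => (hcF y).aestronglyMeasurable)
    ((hcF y0).intervalIntegrable c d)
    (hcF1 y0).aestronglyMeasurable ?_ intervalIntegrable_const ?_
  · exact key.2
  · refine Filter.Eventually.of_forall fun t ht y hy => ?_
    rw [Metric.mem_ball, Real.dist_eq, abs_lt] at hy
    exact hM (y, t) ⟨⟨by linarith [hy.1], by linarith [hy.2]⟩, Set.uIoc_subset_uIcc ht⟩
  · exact Filter.Eventually.of_forall fun t _ y _ => hd y t

/-- Leibniz rule, moving upper limit -/
lemma leibniz_up (f f1 : ℝ → ℝ → ℝ) (hf : Continuous (Function.uncurry f))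
    (hf1 : Continuous (Function.uncurry f1))
    (hd : ∀ y x, HasDerivAt (fun y => f y x) (f1 y x) y) (c y0 : ℝ) :
    HasDerivAt (fun y => ∫ x in c..y, f y x) (f y0 y0 + ∫ x in c..y0, f1 y0 x) y0 := by
  have hcF : ∀ y : ℝ, Continuous (fun x : ℝ => f y x) := fun y => by
    exact hf.comp (by fun_prop : Continuous fun x : ℝ => (y, x))
  have h1 := param_deriv f f1 hf hf1 hd c y0 y0
  have h2 : HasDerivAt (fun y => ∫ x in y0..y, f y x) (f y0 y0) y0 := by
    rw [hasDerivAt_iff_isLittleO, Asymptotics.isLittleO_iff]
    intro ε hε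
    have hcont : ContinuousAt (Function.uncurry f) (y0, y0) := hf.continuousAt
    rw [Metric.continuousAt_iff] at hcont
    obtain ⟨δ, hδ, hδ'⟩ := hcont ε hε
    filter_upwards [Metric.ball_mem_nhds y0 hδ] with y hy
    rw [Metric.mem_ball] at hy
    have e : (∫ x in y0..y, f y x) - (∫ x in y0..y0, f y0 x) - (y - y0) • f y0 y0
        = ∫ x in y0..y, (f y x - f y0 y0) := by
      rw [intervalIntegral.integral_sub ((hcF y).intervalIntegrable _ _) intervalIntegrable_const]
      simp
    rw [e]
    have := intervalIntegral.norm_integral_le_of_norm_le_const (a := y0) (b := y) (C := ε)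
      (f := fun x => f y x - f y0 y0) ?_
    · simpa [Real.norm_eq_abs] using this
    · intro x hx
      have hx' : |x - y0| ≤ |y - y0| := by
        rcases le_total y0 y with h | h
        · rw [Set.uIoc_of_le h] at hx
          rw [abs_of_pos (by linarith [hx.1]), abs_of_nonneg (by linarith)]
          linarith [hx.2]
        · rw [Set.uIoc_of_ge h] at hx
          rw [abs_of_nonpos (by linarith [hx.2]), abs_of_nonpos (by linarith)]
          linarith [hx.1]
      have h3 := hδ' (x := (y, x)) (by
        rw [Prod.dist_eq, Real.dist_eq, Real.dist_eq]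
        rw [Real.dist_eq] at hy
        exact max_lt hy (lt_of_le_of_lt hx' hy))
      rw [Real.dist_eq] at h3
      rw [Real.norm_eq_abs]
      exact h3.le
  have h3 := h1.add h2
  have e : (fun y => ∫ x in c..y, f y x) = fun y => (∫ x in c..y0, f y x) + ∫ x in y0..y, f y x := by
    funext y
    exact (intervalIntegral.integral_add_adjacent_intervals ((hcF y).intervalIntegrable _ _)
      ((hcF y).intervalIntegrable _ _)).symm
  rw [e]
  exact h3.congr_deriv (by ring)

/-- Leibniz rule, moving lower limit -/
lemma leibniz_low (f f1 : ℝ → ℝ → ℝ) (hf : Continuous (Function.uncurry f))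
    (hf1 : Continuous (Function.uncurry f1))
    (hd : ∀ y x, HasDerivAt (fun y => f y x) (f1 y x) y) (d y0 : ℝ) :
    HasDerivAt (fun y => ∫ x in y..d, f y x) (-f y0 y0 + ∫ x in y0..d, f1 y0 x) y0 := by
  have h := (leibniz_up f f1 hf hf1 hd d y0).neg
  have e : (fun y => ∫ x in y..d, f y x) = fun y => -∫ x in d..y, f y x := by
    funext y
    exact intervalIntegral.integral_symm _ _
  rw [e]
  refine HasDerivAt.congr_deriv (f := fun y => -∫ x in d..y, f y x) h ?_
  rw [intervalIntegral.integral_symm y0 d]
  ring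

end Pool.Agent.H16.ND
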