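import Mathlib
import Pool.Agent.H16.ND.Leib

set_option autoImplicit false

namespace Pool.Agent.H16.ND
open MeasureTheory

/-- a smooth even convex function vanishing at `0`, with its first two derivatives -/
structure Cvx (φ φ1 φ2 : ℝ → ℝ) : Prop where
  d1 : ∀ t, HasDerivAt φ (φ1 t) t
  d2 : ∀ t, HasDerivAt φ1 (φ2 t) t
  c2 : Continuous φ2
  nn : ∀ t, 0 ≤ φ2 t
  zero : φ 0 = 0
  even : ∀ t, φ (-t) = φ t

namespace Cvx
variable {φ φ1 φ2 : ℝ → ℝ} (h : Cvx φ φ1 φ2)
include h

lemma c0 : Continuous φ := continuous_iff_continuousAt.2 fun t => (h.d1 t).continuousAt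
lemma c1 : Continuous φ1 := continuous_iff_continuousAt.2 fun t => (h.d2 t).continuousAt

lemma mono : Monotone φ1 := by
  apply monotone_of_deriv_nonneg (fun t => (h.d2 t).differentiableAt)
  intro t
  rw [(h.d2 t).deriv]
  exact h.nn t

lemma odd (t : ℝ) : φ1 (-t) = -φ1 t := by
  have h1 : HasDerivAt (fun s => φ (-s)) (-φ1 (-t)) t := by
    have := (h.d1 (-t)).comp t (hasDerivAt_neg t)
    exact this.congr_deriv (by ring)
  have h2 : (fun s => φ (-s)) = φ := funext h.even
  rw [h2] at h1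
  have := h1.unique (h.d1 t)
  linarith

lemma one_zero : φ1 0 = 0 := by
  have := h.odd 0
  rw [neg_zero] at this
  linarith

lemma one_nonneg {t : ℝ} (ht : 0 ≤ t) : 0 ≤ φ1 t := by
  rw [← h.one_zero]; exact h.mono ht

/-- supporting lines -/
lemma supp (u v : ℝ) : φ u + φ1 u * (v - u) ≤ φ v := by
  have hconv : ConvexOn ℝ Set.univ φ := by
    apply MonotoneOn.convexOn_of_deriv convex_univ h.c0.continuousOn
    · intro x _; exact (h.d1 x).differentiableAt.differentiableWithinAt
    · intro x _ y _ hxy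
      rw [(h.d1 x).deriv, (h.d1 y).deriv]
      exact h.mono hxy
  rcases lt_trichotomy u v with huv | huv | huv
  · have := hconv.le_slope_of_hasDerivAt (Set.mem_univ u) (Set.mem_univ v) huv (h.d1 u)
    rw [slope_def_field, le_div_iff₀ (by linarith)] at this
    linarith
  · subst huv; simp
  · have := hconv.slope_le_of_hasDerivAt (Set.mem_univ v) (Set.mem_univ u) huv (h.d1 u)
    rw [slope_def_field, div_le_iff₀ (by linarith)] at this
    linarith

lemma young (y : ℝ) : φ y ≤ y * φ1 y := by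
  have := h.supp y 0
  rw [h.zero] at this
  linarith

lemma nonneg (y : ℝ) : 0 ≤ φ y := by
  have := h.supp 0 y
  rw [h.zero, h.one_zero] at this
  linarith

end Cvx

/-- `(W ω_{ab})'` where `ω_{ab}(x) = (x-a)(b-x)/2` -/
noncomputable def V (W W1 : ℝ → ℝ) (a b x : ℝ) : ℝ :=
  (W1 x * ((x - a) * (b - x)) + W x * (a + b - 2 * x)) / 2

/-- a smooth weight, positive on `[A,B]`, with convex reciprocal -/
structure Wt (A B : ℝ) (W W1 W2 : ℝ → ℝ) : Prop where
  d1 : ∀ x, HasDerivAt W (W1 x) x
  d2 : ∀ x, HasDerivAt W1 (W2 x) x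
  c2 : Continuous W2
  pos : ∀ x ∈ Set.Icc A B, 0 < W x
  cvx : ∀ x ∈ Set.Icc A B, W x * W2 x ≤ 2 * (W1 x) ^ 2

namespace Wt
variable {A B : ℝ} {W W1 W2 : ℝ → ℝ} (h : Wt A B W W1 W2)
include h

lemma c0 : Continuous W := continuous_iff_continuousAt.2 fun t => (h.d1 t).continuousAt
lemma c1 : Continuous W1 := continuous_iff_continuousAt.2 fun t => (h.d2 t).continuousAt

lemma anti : AntitoneOn (fun x => W1 x / (W x) ^ 2) (Set.Icc A B) := by
  have hder : ∀ x ∈ Set.Icc A B, HasDerivAt (fun x => W1 x / (W x) ^ 2)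
      ((W2 x * (W x) ^ 2 - W1 x * (2 * W x * W1 x)) / ((W x) ^ 2) ^ 2) x := by
    intro x hx
    have hp := h.pos x hx
    have h1 : HasDerivAt (fun x => (W x) ^ 2) (2 * W x * W1 x) x := by
      have := (h.d1 x).pow 2
      exact this.congr_deriv (by norm_num)
    exact (h.d2 x).div h1 (by positivity)
  apply antitoneOn_of_deriv_nonpos (convex_Icc A B)
  · intro x hx
    exact (hder x hx).continuousAt.continuousWithinAt
  · intro x hx
    exact (hder x (interior_subset hx)).differentiableAt.differentiableWithinAt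
  · intro x hx
    have hx' := interior_subset hx
    rw [(hder x hx').deriv]
    have hp := h.pos x hx'
    have hc := h.cvx x hx'
    apply div_nonpos_of_nonpos_of_nonneg _ (by positivity)
    have : W2 x * W x ^ 2 - W1 x * (2 * W x * W1 x) = W x * (W x * W2 x - 2 * (W1 x) ^ 2) := by
      ring
    rw [this]
    exact mul_nonpos_of_nonneg_of_nonpos hp.le (by linarith)

lemma sub {a b : ℝ} (ha : A ≤ a) (hb : b ≤ B) : Wt a b W W1 W2 where
  d1 := h.d1
  d2 := h.d2
  c2 := h.c2
  pos x hx := h.pos x ⟨ha.trans hx.1, hx.2.trans hb⟩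
  cvx x hx := h.cvx x ⟨ha.trans hx.1, hx.2.trans hb⟩

/-- a weight with convex reciprocal is unimodal -/
lemma unimodal (hAB : A ≤ B) : ∃ c ∈ Set.Icc A B, (∀ x ∈ Set.Ico A c, 0 ≤ W1 x) ∧
    (∀ x ∈ Set.Ioc c B, W1 x ≤ 0) := by
  have hsign1 : ∀ x ∈ Set.Icc A B, ∀ y ∈ Set.Icc A B, x ≤ y → W1 x ≤ 0 → W1 y ≤ 0 := by
    intro x hx y hy hxy h0
    have := h.anti hx hy hxy
    have hpx := h.pos x hx
    have hpy := h.pos y hy
    have h1 : W1 x / (W x) ^ 2 ≤ 0 := div_nonpos_of_nonpos_of_nonneg h0 (by positivity)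
    have h2 : W1 y / (W y) ^ 2 ≤ 0 := le_trans this h1
    by_contra hcon
    push Not at hcon
    have : 0 < W1 y / (W y) ^ 2 := by positivity
    linarith
  by_cases hA : W1 A ≤ 0
  · refine ⟨A, ⟨le_rfl, hAB⟩, ?_, ?_⟩
    · intro x hx
      exact absurd hx.1 (not_le.2 hx.2)
    · intro x hx
      exact hsign1 A ⟨le_rfl, hAB⟩ x ⟨hx.1.le, hx.2⟩ hx.1.le hA
  · push Not at hA
    by_cases hB : 0 ≤ W1 B
    · refine ⟨B, ⟨hAB, le_rfl⟩, ?_, ?_⟩
      · intro x hx
        by_contra hcon
        push Not at hcon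
        have hm := h.anti ⟨hx.1, hx.2.le⟩ ⟨hAB, le_rfl⟩ hx.2.le
        have hpx := h.pos x ⟨hx.1, hx.2.le⟩
        have hpB := h.pos B ⟨hAB, le_rfl⟩
        have h1 : W1 x / (W x) ^ 2 < 0 := div_neg_of_neg_of_pos hcon (by positivity)
        have h2 : 0 ≤ W1 B / (W B) ^ 2 := by positivity
        simp only at hm
        linarith
      · intro x hx
        exact absurd hx.2 (not_le.2 hx.1)
    · push Not at hB
      obtain ⟨c, hc, hc0⟩ := intermediate_value_Icc' hAB h.c1.continuousOn ⟨hB.le, hA.le⟩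
      refine ⟨c, hc, ?_, ?_⟩
      · intro x hx
        by_contra hcon
        push Not at hcon
        have hm := h.anti ⟨hx.1, hx.2.le.trans hc.2⟩ hc hx.2.le
        have hpx := h.pos x ⟨hx.1, hx.2.le.trans hc.2⟩
        have h1 : W1 x / (W x) ^ 2 < 0 := div_neg_of_neg_of_pos hcon (by positivity)
        simp only [hc0, zero_div] at hm
        linarith
      · intro x hx
        exact hsign1 c hc x ⟨hc.1.trans hx.1.le, hx.2⟩ hx.1.le hc0.le

end Wt

section
variable {A B : ℝ} {W W1 W2 φ φ1 φ2 : ℝ → ℝ}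

lemma V_cont (hW : Continuous W) (hW1 : Continuous W1) (a b : ℝ) : Continuous (V W W1 a b) := by
  unfold V; fun_prop

/-- the key inequality -/
lemma key_nonneg (hAB : A < B) (hw : Wt A B W W1 W2) (hp : Cvx φ φ1 φ2) :
    0 ≤ W B * φ1 (W B * (B - A) / 2) + W A * φ1 (W A * (B - A) / 2)
      + ∫ x in A..B, φ1 (V W W1 A B x) * W1 x := by
  obtain ⟨c, hc, hc1, hc2⟩ := hw.unimodal hAB.le
  set k : ℝ := (A + B - 2 * c) / 2 with hk
  have hWA := hw.pos A ⟨le_rfl, hAB.le⟩
  have hWB := hw.pos B ⟨hAB.le, le_rfl⟩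
  have hcW := hw.c0
  have hcW1 := hw.c1
  have hcp := hp.c1
  have hpt : ∀ x ∈ Set.Icc A B, φ1 (k * W x) * W1 x ≤ φ1 (V W W1 A B x) * W1 x := by
    intro x hx
    have hWx := hw.pos x hx
    have e : V W W1 A B x = W1 x * ((x - A) * (B - x)) / 2 + k * W x - W x * (x - c) := by
      unfold V; rw [hk]; ring
    have hPR : 0 ≤ (x - A) * (B - x) := mul_nonneg (by linarith [hx.1]) (by linarith [hx.2])
    rcases lt_trichotomy x c with hxc | hxc | hxc
    · have h1 := hc1 x ⟨hx.1, hxc⟩
      apply mul_le_mul_of_nonneg_right _ h1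
      apply hp.mono
      rw [e]
      have h2 := mul_nonneg h1 hPR
      have h3 := mul_nonneg hWx.le (by linarith : 0 ≤ c - x)
      nlinarith
    · have e2 : V W W1 A B x = W1 x * ((x - A) * (B - x)) / 2 + k * W x := by
        rw [e, hxc]; ring
      rcases le_total 0 (W1 x) with h1 | h1
      · apply mul_le_mul_of_nonneg_right _ h1
        apply hp.mono
        rw [e2]
        have h2 := mul_nonneg h1 hPR
        linarith
      · apply mul_le_mul_of_nonpos_right _ h1
        apply hp.mono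
        rw [e2]
        have h2 := mul_nonneg (by linarith : 0 ≤ - W1 x) hPR
        linarith
    · have h1 := hc2 x ⟨hxc, hx.2⟩
      apply mul_le_mul_of_nonpos_right _ h1
      apply hp.mono
      rw [e]
      have h2 := mul_nonneg (by linarith : 0 ≤ - W1 x) hPR
      have h3 := mul_nonneg hWx.le (by linarith : 0 ≤ x - c)
      nlinarith
  have hint : ∫ x in A..B, φ1 (k * W x) * W1 x ≤ ∫ x in A..B, φ1 (V W W1 A B x) * W1 x := by
    apply intervalIntegral.integral_mono_on hAB.le
    · exact (by fun_prop : Continuous fun x => φ1 (k * W x) * W1 x).intervalIntegrable _ _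
    · have hV := V_cont hcW hcW1 A B
      exact (by fun_prop : Continuous fun x => φ1 (V W W1 A B x) * W1 x).intervalIntegrable _ _
    · exact hpt
  have hBA : 0 < B - A := by linarith
  have hA0 : 0 ≤ φ1 (W A * (B - A) / 2) := hp.one_nonneg (by positivity)
  have hB0 : 0 ≤ φ1 (W B * (B - A) / 2) := hp.one_nonneg (by positivity)
  have hprim : k * ∫ x in A..B, φ1 (k * W x) * W1 x = φ (k * W B) - φ (k * W A) := by
    rw [← intervalIntegral.integral_const_mul]
    have := intervalIntegral.integral_eq_sub_of_hasDerivAt (a := A) (b := B)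
      (f := fun x => φ (k * W x)) (f' := fun x => k * (φ1 (k * W x) * W1 x)) ?_ ?_
    · exact this
    · intro x _
      have h1 : HasDerivAt (fun x => k * W x) (k * W1 x) x := (hw.d1 x).const_mul k
      have h2 := (hp.d1 (k * W x)).comp x h1
      exact h2.congr_deriv (by ring)
    · exact (by fun_prop : Continuous fun x => k * (φ1 (k * W x) * W1 x)).intervalIntegrable _ _
  set I := ∫ x in A..B, φ1 (k * W x) * W1 x with hI
  rcases lt_trichotomy k 0 with hk0 | hk0 | hk0
  · -- `k < 0`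
    have h1 : φ1 (-k * W B) ≤ φ1 (W B * (B - A) / 2) := by
      apply hp.mono
      have : -k ≤ (B - A) / 2 := by rw [hk]; linarith [hc.2]
      nlinarith
    have h2 : φ (k * W B) ≤ (-k * W B) * φ1 (-k * W B) := by
      have := hp.young (-k * W B)
      rwa [neg_mul, hp.even, ← neg_mul] at this
    have h3 := hp.nonneg (k * W A)
    have h4 : 0 ≤ W B * φ1 (W B * (B - A) / 2) + I := by
      have h5 : 0 ≤ (-k) * (W B * φ1 (W B * (B - A) / 2) + I) := by
        have h6 : (-k) * (W B * φ1 (-k * W B)) ≤ (-k) * (W B * φ1 (W B * (B - A) / 2)) :=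
          mul_le_mul_of_nonneg_left (mul_le_mul_of_nonneg_left h1 hWB.le) (by linarith)
        nlinarith
      exact nonneg_of_mul_nonneg_right h5 (by linarith)
    have h7 := mul_nonneg hWA.le hA0
    linarith
  · have h1 : I = 0 := by
      rw [hI, hk0]
      simp [hp.one_zero]
    have h7 := mul_nonneg hWA.le hA0
    have h8 := mul_nonneg hWB.le hB0
    linarith
  · have h1 : φ1 (k * W A) ≤ φ1 (W A * (B - A) / 2) := by
      apply hp.mono
      have : k ≤ (B - A) / 2 := by rw [hk]; linarith [hc.1]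
      nlinarith
    have h2 : φ (k * W A) ≤ (k * W A) * φ1 (k * W A) := hp.young (k * W A)
    have h3 := hp.nonneg (k * W B)
    have h4 : 0 ≤ W A * φ1 (W A * (B - A) / 2) + I := by
      have h5 : 0 ≤ k * (W A * φ1 (W A * (B - A) / 2) + I) := by
        have h6 : k * (W A * φ1 (k * W A)) ≤ k * (W A * φ1 (W A * (B - A) / 2)) :=
          mul_le_mul_of_nonneg_left (mul_le_mul_of_nonneg_left h1 hWA.le) (by linarith)
        nlinarith
      exact nonneg_of_mul_nonneg_right h5 (by linarith)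
    have h7 := mul_nonneg hWB.le hB0
    linarith

end

end Pool.Agent.H16.ND
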