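import Mathlib
import Pool.Agent.H16.ND.Leib
import Pool.Agent.H16.ND.Key

set_option autoImplicit false

namespace Pool.Agent.H16.ND
open MeasureTheory

section
variable {A B : ℝ} {W W1 W2 φ φ1 φ2 : ℝ → ℝ}

/-- `Φ(a,b) = ∫_a^b φ((W ω_{ab})')` -/
noncomputable def Phi (W W1 φ : ℝ → ℝ) (a b : ℝ) : ℝ := ∫ x in a..b, φ (V W W1 a b x)

/-- `∂_b Φ(a,b)` -/
noncomputable def DD (W W1 φ φ1 : ℝ → ℝ) (a b : ℝ) : ℝ :=
  φ (V W W1 a b b) + ∫ x in a..b, φ1 (V W W1 a b x) * ((W1 x * (x - a) + W x) / 2)

lemma Phi_deriv (hw : Wt A B W W1 W2) (hp : Cvx φ φ1 φ2) (a b : ℝ) :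
    HasDerivAt (fun b => Phi W W1 φ a b) (DD W W1 φ φ1 a b) b := by
  have hcW := hw.c0
  have hcW1 := hw.c1
  have hcp := hp.c0
  have hcp1 := hp.c1
  refine leibniz_up (fun b x => φ (V W W1 a b x))
    (fun b x => φ1 (V W W1 a b x) * ((W1 x * (x - a) + W x) / 2)) ?_ ?_ ?_ a b
  · simp only [Function.uncurry_def, V]; fun_prop
  · simp only [Function.uncurry_def, V]; fun_prop
  · intro y x
    have h1 : HasDerivAt (fun y => V W W1 a y x) ((W1 x * (x - a) + W x) / 2) y := by
      unfold V
      have h2 : HasDerivAt (fun y : ℝ => W1 x * ((x - a) * (y - x)) + W x * (a + y - 2 * x))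
          (W1 x * ((x - a) * 1) + W x * 1) y := by
        refine HasDerivAt.add ?_ ?_
        · exact (((hasDerivAt_id y).sub_const x).const_mul (x - a)).const_mul (W1 x)
        · exact (((hasDerivAt_id y).const_add a).sub_const (2 * x)).const_mul (W x)
      exact (h2.div_const 2).congr_deriv (by ring)
    exact (hp.d1 _).comp y h1

/-- the derivative of `a ↦ ∂_b Φ(a,b)` -/
noncomputable def DA (W W1 φ1 φ2 : ℝ → ℝ) (b a : ℝ) : ℝ :=
  φ1 (V W W1 a b b) * (W b / 2) +
  (-(φ1 (V W W1 a b a) * ((W1 a * (a - a) + W a) / 2)) +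
    ∫ x in a..b, (φ2 (V W W1 a b x) * ((-(W1 x * (b - x)) + W x) / 2) *
      ((W1 x * (x - a) + W x) / 2) + φ1 (V W W1 a b x) * (-W1 x / 2)))

lemma DD_deriv (hw : Wt A B W W1 W2) (hp : Cvx φ φ1 φ2) (a b : ℝ) :
    HasDerivAt (fun a => DD W W1 φ φ1 a b) (DA W W1 φ1 φ2 b a) a := by
  have hcW := hw.c0
  have hcW1 := hw.c1
  have hcp := hp.c0
  have hcp1 := hp.c1
  have hcp2 := hp.c2
  have hV : ∀ y x, HasDerivAt (fun y => V W W1 y b x) ((-(W1 x * (b - x)) + W x) / 2) y := by
    intro y x
    unfold V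
    have h2 : HasDerivAt (fun y : ℝ => W1 x * ((x - y) * (b - x)) + W x * (y + b - 2 * x))
        (W1 x * ((-1) * (b - x)) + W x * 1) y := by
      refine HasDerivAt.add ?_ ?_
      · exact (((hasDerivAt_id y).const_sub x).mul_const (b - x)).const_mul (W1 x)
      · exact (((hasDerivAt_id y).add_const b).sub_const (2 * x)).const_mul (W x)
    exact (h2.div_const 2).congr_deriv (by ring)
  unfold DD DA
  refine HasDerivAt.add ?_ ?_
  · have h1 := (hp.d1 _).comp a (hV a b)
    exact h1.congr_deriv (by ring)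
  · refine leibniz_low (fun a x => φ1 (V W W1 a b x) * ((W1 x * (x - a) + W x) / 2))
      (fun a x => φ2 (V W W1 a b x) * ((-(W1 x * (b - x)) + W x) / 2) *
      ((W1 x * (x - a) + W x) / 2) + φ1 (V W W1 a b x) * (-W1 x / 2)) ?_ ?_ ?_ b a
    · simp only [Function.uncurry_def, V]; fun_prop
    · simp only [Function.uncurry_def, V]; fun_prop
    · intro y x
      have h1 := (hp.d2 _).comp y (hV y x)
      have h2 : HasDerivAt (fun y : ℝ => (W1 x * (x - y) + W x) / 2) (-W1 x / 2) y := by
        have := ((((hasDerivAt_id y).const_sub x).const_mul (W1 x)).add_const (W x)).div_const 2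
        exact this.congr_deriv (by ring)
      exact h1.mul h2

lemma DA_nonpos {a b : ℝ} (hab : a < b) (hw : Wt a b W W1 W2) (hp : Cvx φ φ1 φ2) :
    DA W W1 φ1 φ2 b a ≤ 0 := by
  have hcW := hw.c0
  have hcW1 := hw.c1
  have hcW2 := hw.c2
  have hcp := hp.c0
  have hcp1 := hp.c1
  have hcp2 := hp.c2
  have hVc := V_cont hcW hcW1 a b
  have key := key_nonneg hab hw hp
  have eb : V W W1 a b b = -(W b * (b - a) / 2) := by unfold V; ring
  have ea : V W W1 a b a = W a * (b - a) / 2 := by unfold V; ring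
  have hVd : ∀ x, HasDerivAt (V W W1 a b)
      ((W2 x * ((x - a) * (b - x))) / 2 + W1 x * (a + b - 2 * x) - W x) x := by
    intro x
    unfold V
    have h1 : HasDerivAt (fun x : ℝ => (x - a) * (b - x)) (a + b - 2 * x) x := by
      have := ((hasDerivAt_id x).sub_const a).mul ((hasDerivAt_id x).const_sub b)
      exact this.congr_deriv (by simp; ring)
    have h2 : HasDerivAt (fun x : ℝ => a + b - 2 * x) (-2) x := by
      have := ((hasDerivAt_id x).const_mul (2 : ℝ)).const_sub (a + b)
      exact this.congr_deriv (by ring)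
    have h3 := (((hw.d2 x).mul h1).add ((hw.d1 x).mul h2)).div_const 2
    exact h3.congr_deriv (by ring)
  -- integration by parts
  have hibp : ∫ x in a..b, (φ2 (V W W1 a b x) *
        ((W2 x * ((x - a) * (b - x))) / 2 + W1 x * (a + b - 2 * x) - W x) * W x
        + φ1 (V W W1 a b x) * W1 x)
      = φ1 (V W W1 a b b) * W b - φ1 (V W W1 a b a) * W a := by
    apply intervalIntegral.integral_eq_sub_of_hasDerivAt (f := fun x => φ1 (V W W1 a b x) * W x)
    · intro x _
      exact ((hp.d2 _).comp x (hVd x)).mul (hw.d1 x)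
    · exact (by fun_prop : Continuous fun x => (φ2 (V W W1 a b x) *
        ((W2 x * ((x - a) * (b - x))) / 2 + W1 x * (a + b - 2 * x) - W x) * W x
        + φ1 (V W W1 a b x) * W1 x)).intervalIntegrable _ _
  have hpos : 0 ≤ ∫ x in a..b, φ2 (V W W1 a b x) *
      ((2 * (W1 x) ^ 2 - W x * W2 x) * ((x - a) * (b - x))) := by
    apply intervalIntegral.integral_nonneg hab.le
    intro x hx
    have h1 := hw.cvx x hx
    exact mul_nonneg (hp.nn _) (mul_nonneg (by linarith)
      (mul_nonneg (by linarith [hx.1]) (by linarith [hx.2])))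
  have i1 : IntervalIntegrable (fun x => φ2 (V W W1 a b x) *
        ((W2 x * ((x - a) * (b - x))) / 2 + W1 x * (a + b - 2 * x) - W x) * W x
        + φ1 (V W W1 a b x) * W1 x) volume a b :=
    (by fun_prop : Continuous fun x => (φ2 (V W W1 a b x) *
        ((W2 x * ((x - a) * (b - x))) / 2 + W1 x * (a + b - 2 * x) - W x) * W x
        + φ1 (V W W1 a b x) * W1 x)).intervalIntegrable _ _
  have i2 : IntervalIntegrable (fun x => φ1 (V W W1 a b x) * W1 x) volume a b :=
    (by fun_prop : Continuous fun x => φ1 (V W W1 a b x) * W1 x).intervalIntegrable _ _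
  have i3 : IntervalIntegrable (fun x => φ2 (V W W1 a b x) *
      ((2 * (W1 x) ^ 2 - W x * W2 x) * ((x - a) * (b - x)))) volume a b :=
    (by fun_prop : Continuous fun x => φ2 (V W W1 a b x) *
      ((2 * (W1 x) ^ 2 - W x * W2 x) * ((x - a) * (b - x)))).intervalIntegrable _ _
  have hsplit : ∫ x in a..b, (φ2 (V W W1 a b x) * ((-(W1 x * (b - x)) + W x) / 2) *
      ((W1 x * (x - a) + W x) / 2) + φ1 (V W W1 a b x) * (-W1 x / 2))
      = (-1 / 4) * (∫ x in a..b, (φ2 (V W W1 a b x) *
        ((W2 x * ((x - a) * (b - x))) / 2 + W1 x * (a + b - 2 * x) - W x) * W x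
        + φ1 (V W W1 a b x) * W1 x))
        + ((-1 / 4) * (∫ x in a..b, φ1 (V W W1 a b x) * W1 x)
        + (-1 / 8) * (∫ x in a..b, φ2 (V W W1 a b x) *
      ((2 * (W1 x) ^ 2 - W x * W2 x) * ((x - a) * (b - x))))) := by
    rw [← intervalIntegral.integral_const_mul, ← intervalIntegral.integral_const_mul,
      ← intervalIntegral.integral_const_mul,
      ← intervalIntegral.integral_add (i2.const_mul _) (i3.const_mul _),
      ← intervalIntegral.integral_add (i1.const_mul _) ((i2.const_mul _).add (i3.const_mul _))]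
    apply intervalIntegral.integral_congr
    intro x _
    simp only
    ring
  unfold DA
  rw [hsplit, hibp, eb, ea, hp.odd]
  set I := ∫ x in a..b, φ1 (V W W1 a b x) * W1 x
  set J := ∫ x in a..b, φ2 (V W W1 a b x) *
      ((2 * (W1 x) ^ 2 - W x * W2 x) * ((x - a) * (b - x)))
  nlinarith

/-- superadditivity -/
theorem Phi_super {a s b : ℝ} (has : a ≤ s) (hsb : s ≤ b) (hw : Wt a b W W1 W2)
    (hp : Cvx φ φ1 φ2) : Phi W W1 φ a s + Phi W W1 φ s b ≤ Phi W W1 φ a b := by
  -- monotonicity of `DD` in its first variable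
  have hDD : ∀ t ∈ Set.Ioo s b, DD W W1 φ φ1 s t ≤ DD W W1 φ φ1 a t := by
    intro t ht
    have hanti : AntitoneOn (fun a => DD W W1 φ φ1 a t) (Set.Icc a s) := by
      apply antitoneOn_of_deriv_nonpos (convex_Icc a s)
      · intro x _
        exact (DD_deriv hw hp x t).continuousAt.continuousWithinAt
      · intro x _
        exact (DD_deriv hw hp x t).differentiableAt.differentiableWithinAt
      · intro x hx
        rw [interior_Icc] at hx
        rw [(DD_deriv hw hp x t).deriv]
        exact DA_nonpos (hx.2.trans ht.1) (hw.sub hx.1.le ht.2.le) hp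
    exact hanti ⟨le_rfl, has⟩ ⟨has, le_rfl⟩ has
  have hmono : MonotoneOn (fun t => Phi W W1 φ a t - Phi W W1 φ s t) (Set.Icc s b) := by
    apply monotoneOn_of_deriv_nonneg (convex_Icc s b)
    · intro x _
      exact ((Phi_deriv hw hp a x).sub (Phi_deriv hw hp s x)).continuousAt.continuousWithinAt
    · intro x _
      exact ((Phi_deriv hw hp a x).sub
        (Phi_deriv hw hp s x)).differentiableAt.differentiableWithinAt
    · intro x hx
      rw [interior_Icc] at hx
      have hd : HasDerivAt (fun t => Phi W W1 φ a t - Phi W W1 φ s t)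
          (DD W W1 φ φ1 a x - DD W W1 φ φ1 s x) x :=
        (Phi_deriv hw hp a x).sub (Phi_deriv hw hp s x)
      rw [hd.deriv]
      linarith [hDD x hx]
  have h := hmono ⟨le_rfl, hsb⟩ ⟨hsb, le_rfl⟩ hsb
  have e : Phi W W1 φ s s = 0 := by unfold Phi; simp
  simp only [e, sub_zero] at h
  linarith

end

end Pool.Agent.H16.ND
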