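import Mathlib
import Pool.Agent.H16.ND.Leib
import Pool.Agent.H16.ND.Key
import Pool.Agent.H16.ND.Super

set_option autoImplicit false

namespace Pool.Agent.H16.ND
open MeasureTheory

lemma sign_const (q : ℝ → ℝ) (hq : Continuous q) {c d : ℝ} (hc : q c = 0) (hd : q d = 0)
    (h : ∀ x ∈ Set.Ioo c d, q x ≠ 0) :
    (∀ x ∈ Set.Icc c d, 0 ≤ q x) ∨ (∀ x ∈ Set.Icc c d, q x ≤ 0) := by
  by_contra hcon
  push Not at hcon
  obtain ⟨⟨x, hx, hx0⟩, ⟨y, hy, hy0⟩⟩ := hcon
  have hin : ∀ z ∈ Set.Icc c d, q z ≠ 0 → z ∈ Set.Ioo c d := by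
    intro z hz hz0
    refine ⟨lt_of_le_of_ne hz.1 ?_, lt_of_le_of_ne hz.2 ?_⟩
    · rintro rfl; exact hz0 hc
    · rintro rfl; exact hz0 hd
  have hx' := hin x hx hx0.ne
  have hy' := hin y hy hy0.ne'
  obtain ⟨z, hz, hz0⟩ := intermediate_value_uIcc (a := x) (b := y) hq.continuousOn
    (Set.mem_uIcc.2 (Or.inl ⟨hx0.le, hy0.le⟩) : (0 : ℝ) ∈ Set.uIcc (q x) (q y))
  refine h z ?_ hz0
  rcases Set.mem_uIcc.1 hz with hz | hz
  · exact ⟨hx'.1.trans_le hz.1, hz.2.trans_lt hy'.2⟩
  · exact ⟨hy'.1.trans_le hz.1, hz.2.trans_lt hx'.2⟩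

/-- `∫ q' g ≤ ∫ |q|` for a `1`-Lipschitz `g` when `q` vanishes at the ends -/
lemma lip_parts (q q1 g : ℝ → ℝ) {a b : ℝ} (hab : a ≤ b) (hq : ∀ x, HasDerivAt q (q1 x) x)
    (hq1 : Continuous q1) (ha : q a = 0) (hb : q b = 0)
    (hg : LipschitzOnWith 1 g (Set.Icc a b)) :
    ∫ x in a..b, g x * q1 x ≤ ∫ x in a..b, |q x| := by
  have hqd : deriv q = q1 := funext fun x => (hq x).deriv
  have hqc : Continuous q := continuous_iff_continuousAt.2 fun t => (hq t).continuousAt
  have hqac : AbsolutelyContinuousOnInterval q a b := by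
    have hC : ContDiff ℝ 1 q := by
      rw [contDiff_one_iff_deriv]
      exact ⟨fun x => (hq x).differentiableAt, by rw [hqd]; exact hq1⟩
    exact hC.contDiffOn.absolutelyContinuousOnInterval
  have hgac : AbsolutelyContinuousOnInterval g a b := by
    apply LipschitzOnWith.absolutelyContinuousOnInterval (K := 1)
    rw [Set.uIcc_of_le hab]; exact hg
  have h := hgac.integral_mul_deriv_eq_deriv_mul hqac
  rw [hqd, ha, hb] at h
  rw [h]
  simp only [mul_zero, sub_zero, zero_sub]
  rw [← intervalIntegral.integral_neg]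
  apply intervalIntegral.integral_mono_on_of_le_Ioo hab
  · exact (hgac.intervalIntegrable_deriv.mul_continuousOn hqc.continuousOn).neg
  · exact hqc.abs.intervalIntegrable _ _
  · intro x hx
    have h1 : ‖deriv g x‖ ≤ 1 := by
      have := norm_deriv_le_of_lipschitzOn (Icc_mem_nhds hx.1 hx.2) hg
      simpa using this
    rw [Real.norm_eq_abs] at h1
    calc -(deriv g x * q x) ≤ |deriv g x * q x| := neg_le_abs _
      _ = |deriv g x| * |q x| := abs_mul _ _
      _ ≤ 1 * |q x| := mul_le_mul_of_nonneg_right h1 (abs_nonneg _)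
      _ = |q x| := one_mul _

section
variable {A B : ℝ} {W W1 W2 φ φ1 φ2 : ℝ → ℝ}

lemma Phi_nonneg (hp : Cvx φ φ1 φ2) {a b : ℝ} (hab : a ≤ b) : 0 ≤ Phi W W1 φ a b :=
  intervalIntegral.integral_nonneg hab fun _ _ => hp.nonneg _

lemma Phi_mono (hw : Wt A B W W1 W2) (hp : Cvx φ φ1 φ2) {s t : ℝ} (hs : A ≤ s) (hst : s ≤ t)
    (ht : t ≤ B) : Phi W W1 φ A s ≤ Phi W W1 φ A t := by
  have h1 := Phi_super hs hst (hw.sub le_rfl ht) hp
  have h2 := Phi_nonneg (W := W) (W1 := W1) hp hst
  linarith

/-- the chaining argument -/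
lemma chain (hAB : A < B) (hw : Wt A B W W1 W2) (hp : Cvx φ φ1 φ2) (q g : ℝ → ℝ)
    (hq : Continuous q) (hg : Continuous g) (hqA : q A = 0) (hqB : q B = 0)
    (hg0 : ∀ x, g x ≤ 0)
    (hpiece : ∀ c ∈ Set.Icc A B, ∀ d ∈ Set.Icc A B, c ≤ d → q c = 0 → q d = 0 →
      ((∀ x ∈ Set.Icc c d, 0 ≤ q x) ∨ (∀ x ∈ Set.Icc c d, q x ≤ 0)) →
      ∫ x in c..d, (g x + |q x|) ≤ Phi W W1 φ c d) :
    ∫ x in A..B, (g x + |q x|) ≤ Phi W W1 φ A B := by
  have hcont : Continuous fun x => g x + |q x| := hg.add hq.abs
  have hii : ∀ c d : ℝ, IntervalIntegrable (fun x => g x + |q x|) volume c d :=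
    fun c d => hcont.intervalIntegrable _ _
  apply le_of_forall_pos_le_add
  intro ε' hε'
  set ε : ℝ := ε' / (B - A) with hε
  have hBA : 0 < B - A := by linarith
  have hε0 : 0 < ε := by positivity
  have hεe : ε' = ε * (B - A) := by rw [hε]; field_simp
  set L : ℝ → ℝ := fun t => ∫ x in A..t, (g x + |q x|) with hL
  have hLc : Continuous L := intervalIntegral.continuous_primitive (fun a b => hii a b) A
  have hLadd : ∀ s t : ℝ, L t = L s + ∫ x in s..t, (g x + |q x|) := by
    intro s t
    exact (intervalIntegral.integral_add_adjacent_intervals (hii A s) (hii s t)).symm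
  set S : Set ℝ := {t | t ∈ Set.Icc A B ∧ q t = 0 ∧ L t ≤ Phi W W1 φ A t + ε * (t - A)} with hS
  have hAS : A ∈ S := by
    refine ⟨⟨le_rfl, hAB.le⟩, hqA, ?_⟩
    simp [hL, Phi]
  have hbdd : BddAbove S := ⟨B, fun t ht => ht.1.2⟩
  set T := sSup S with hT
  have hAT : A ≤ T := le_csSup hbdd hAS
  have hTB : T ≤ B := csSup_le ⟨A, hAS⟩ fun t ht => ht.1.2
  have hTcl : T ∈ closure S := csSup_mem_closure ⟨A, hAS⟩ hbdd
  have hTS : T ∈ S := by
    refine ⟨⟨hAT, hTB⟩, ?_, ?_⟩
    · have hcl : IsClosed {t | q t = 0} := isClosed_eq hq continuous_const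
      exact (hcl.closure_subset_iff.2 (fun t ht => ht.2.1 : S ⊆ {t | q t = 0})) hTcl
    · have hcl : IsClosed {t | L t ≤ Phi W W1 φ A T + ε * (T - A)} :=
        isClosed_le hLc continuous_const
      refine (hcl.closure_subset_iff.2 ?_) hTcl
      intro t ht
      have htT : t ≤ T := le_csSup hbdd ht
      have h1 := Phi_mono hw hp ht.1.1 htT hTB
      have h2 := ht.2.2
      show L t ≤ Phi W W1 φ A T + ε * (T - A)
      nlinarith
  have hTeq : T = B := by
    by_contra hne
    have hTlt : T < B := lt_of_le_of_ne hTB hne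
    have hqT := hTS.2.1
    have hLT := hTS.2.2
    set Z : Set ℝ := {x | x ∈ Set.Ioc T B ∧ q x = 0} with hZ
    have hBZ : B ∈ Z := ⟨⟨hTlt, le_rfl⟩, hqB⟩
    have hbb : BddBelow Z := ⟨T, fun x hx => hx.1.1.le⟩
    set z := sInf Z with hz
    have hTz : T ≤ z := le_csInf ⟨B, hBZ⟩ fun x hx => hx.1.1.le
    have hzB : z ≤ B := csInf_le hbb hBZ
    have hzcl : z ∈ closure Z := csInf_mem_closure ⟨B, hBZ⟩ hbb
    have hqz : q z = 0 := by
      have hcl : IsClosed {t | q t = 0} := isClosed_eq hq continuous_const
      exact (hcl.closure_subset_iff.2 (fun t ht => ht.2 : Z ⊆ {t | q t = 0})) hzcl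
    rcases lt_or_eq_of_le hTz with hlt | heq
    · -- a gap
      have hno : ∀ x ∈ Set.Ioo T z, q x ≠ 0 := by
        intro x hx hx0
        have : z ≤ x := csInf_le hbb ⟨⟨hx.1, hx.2.le.trans hzB⟩, hx0⟩
        linarith [hx.2]
      have hsg := sign_const q hq hqT hqz hno
      have hp1 := hpiece T ⟨hAT, hTB⟩ z ⟨hAT.trans hTz, hzB⟩ hTz hqT hqz hsg
      have hsup := Phi_super hAT hTz (hw.sub le_rfl hzB) hp
      have hzS : z ∈ S := by
        refine ⟨⟨hAT.trans hTz, hzB⟩, hqz, ?_⟩
        rw [hLadd T z]
        nlinarith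
      have := le_csSup hbdd hzS
      linarith
    · -- accumulation
      have hcT : ContinuousAt q T := hq.continuousAt
      rw [Metric.continuousAt_iff] at hcT
      obtain ⟨δ, hδ, hδ'⟩ := hcT ε hε0
      have hlt' : z < T + δ := by rw [← heq]; linarith
      obtain ⟨y, hyZ, hyd⟩ := exists_lt_of_csInf_lt ⟨B, hBZ⟩ hlt'
      have hTy : T < y := hyZ.1.1
      have hyB : y ≤ B := hyZ.1.2
      have hp1 : ∫ x in T..y, (g x + |q x|) ≤ ε * (y - T) := by
        have h1 : ∫ x in T..y, (g x + |q x|) ≤ ∫ x in T..y, ε := by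
          apply intervalIntegral.integral_mono_on hTy.le (hii T y) intervalIntegrable_const
          intro x hx
          have h2 := hδ' (x := x) (by
            rw [Real.dist_eq, abs_of_nonneg (by linarith [hx.1])]
            linarith [hx.2])
          rw [Real.dist_eq, hqT, sub_zero] at h2
          have h3 := hg0 x
          linarith
        rw [intervalIntegral.integral_const, smul_eq_mul] at h1
        linarith
      have hm := Phi_mono hw hp hAT hTy.le hyB
      have hyS : y ∈ S := by
        refine ⟨⟨hAT.trans hTy.le, hyB⟩, hyZ.2, ?_⟩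
        rw [hLadd T y]
        nlinarith
      have := le_csSup hbdd hyS
      linarith
  rw [hTeq] at hTS
  have := hTS.2.2
  rw [hεe]
  exact this

/-- the weighted two-node inequality -/
theorem interval_main (hAB : A < B) (hw : Wt A B W W1 W2) (hp : Cvx φ φ1 φ2) (h h1 : ℝ → ℝ)
    (hd : ∀ x, HasDerivAt h (h1 x) x) (hc : Continuous h1)
    (hl : LipschitzOnWith 1 h1 (Set.Icc A B)) (hA : h A = 0) (hB : h B = 0) :
    ∫ x in A..B, φ (W1 x * h x + W x * h1 x) ≤ ∫ x in A..B, φ (V W W1 A B x) := by
  have hcW := hw.c0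
  have hcW1 := hw.c1
  have hcp := hp.c0
  have hcp1 := hp.c1
  have hch : Continuous h := continuous_iff_continuousAt.2 fun t => (hd t).continuousAt
  set u : ℝ → ℝ := fun x => W1 x * h x + W x * h1 x with hu
  have huc : Continuous u := by fun_prop
  set θ : ℝ → ℝ := fun x => φ1 (u x) with hθ
  have hθc : Continuous θ := hcp1.comp huc
  set E : ℝ → ℝ := fun x => ∫ t in A..x, θ t * W1 t with hE
  have hEd : ∀ x, HasDerivAt E (θ x * W1 x) x := fun x => by
    have hcc : Continuous fun t => θ t * W1 t := hθc.mul hcW1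
    exact intervalIntegral.integral_hasDerivAt_right (hcc.intervalIntegrable _ _)
      (hcc.stronglyMeasurableAtFilter _ _) hcc.continuousAt
  have hEc : Continuous E := continuous_iff_continuousAt.2 fun t => (hEd t).continuousAt
  set R : ℝ → ℝ := fun x => θ x * W x - E x with hR
  have hRc : Continuous R := by fun_prop
  set m : ℝ := (∫ x in A..B, R x) / (B - A) with hm
  have hBA : 0 < B - A := by linarith
  set q : ℝ → ℝ := fun x => ∫ t in A..x, (R t - m) with hq
  have hqd : ∀ x, HasDerivAt q (R x - m) x := fun x => by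
    have hcc : Continuous fun t => R t - m := by fun_prop
    exact intervalIntegral.integral_hasDerivAt_right (hcc.intervalIntegrable _ _)
      (hcc.stronglyMeasurableAtFilter _ _) hcc.continuousAt
  have hqc : Continuous q := continuous_iff_continuousAt.2 fun t => (hqd t).continuousAt
  have hqA : q A = 0 := by simp [hq]
  have hqB : q B = 0 := by
    simp only [hq]
    rw [intervalIntegral.integral_sub (hRc.intervalIntegrable _ _) intervalIntegrable_const,
      intervalIntegral.integral_const, smul_eq_mul, hm]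
    field_simp
    ring
  -- (I1)
  have hI1 : ∫ x in A..B, (θ x * u x - h1 x * (R x - m)) = 0 := by
    have := intervalIntegral.integral_eq_sub_of_hasDerivAt (a := A) (b := B)
      (f := fun x => E x * h x + m * h x) (f' := fun x => θ x * u x - h1 x * (R x - m)) ?_ ?_
    · rw [this, hA, hB]; ring
    · intro x _
      have h2 := ((hEd x).mul (hd x)).add ((hd x).const_mul m)
      exact h2.congr_deriv (by simp only [hR, hu]; ring)
    · exact (by fun_prop : Continuous fun x =>
        θ x * u x - h1 x * (R x - m)).intervalIntegrable _ _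
  have hI1' : ∫ x in A..B, θ x * u x ≤ ∫ x in A..B, |q x| := by
    have h2 := lip_parts q (fun x => R x - m) h1 hAB.le hqd (by fun_prop) hqA hqB hl
    rw [intervalIntegral.integral_sub ((by fun_prop : Continuous fun x =>
      θ x * u x).intervalIntegrable _ _) ((by fun_prop : Continuous fun x =>
      h1 x * (R x - m)).intervalIntegrable _ _)] at hI1
    linarith
  -- (I2)
  have hI2 : ∀ c d : ℝ, q c = 0 → q d = 0 →
      ∫ x in c..d, (θ x * V W W1 c d x - q x) = 0 := by
    intro c d hqc0 hqd0
    have hVc := V_cont hcW hcW1 c d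
    have := intervalIntegral.integral_eq_sub_of_hasDerivAt (a := c) (b := d)
      (f := fun x => (E x + m) * ((x - c) * (d - x) / 2) + q x * ((c + d - 2 * x) / 2))
      (f' := fun x => θ x * V W W1 c d x - q x) ?_ ?_
    · rw [this, hqc0, hqd0]; ring
    · intro x _
      have h3 : HasDerivAt (fun x : ℝ => (x - c) * (d - x) / 2) ((c + d - 2 * x) / 2) x := by
        have := (((hasDerivAt_id x).sub_const c).mul ((hasDerivAt_id x).const_sub d)).div_const 2
        exact this.congr_deriv (by simp; ring)
      have h4 : HasDerivAt (fun x : ℝ => (c + d - 2 * x) / 2) (-1) x := by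
        have := (((hasDerivAt_id x).const_mul (2 : ℝ)).const_sub (c + d)).div_const 2
        exact this.congr_deriv (by ring)
      have h5 := (((hEd x).add_const m).mul h3).add ((hqd x).mul h4)
      exact h5.congr_deriv (by simp only [hR, V]; ring)
    · exact (by fun_prop : Continuous fun x =>
        θ x * V W W1 c d x - q x).intervalIntegrable _ _
  -- chaining
  have hch2 := chain hAB hw hp q (fun x => φ (u x) - θ x * u x) hqc (by fun_prop) hqA hqB
    (fun x => by
      have := hp.supp (u x) 0
      rw [hp.zero] at this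
      simp only [hθ]
      linarith)
    (by
      intro c hc' d hd' hcd hqc0 hqd0 hsg
      have hVc := V_cont hcW hcW1 c d
      have hI := hI2 c d hqc0 hqd0
      rw [intervalIntegral.integral_sub ((by fun_prop : Continuous fun x =>
        θ x * V W W1 c d x).intervalIntegrable _ _) (hqc.intervalIntegrable _ _)] at hI
      unfold Phi
      rw [intervalIntegral.integral_add ((by fun_prop : Continuous fun x =>
        φ (u x) - θ x * u x).intervalIntegrable _ _) (hqc.abs.intervalIntegrable _ _)]
      rcases hsg with hs | hs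
      · have e1 : ∫ x in c..d, |q x| = ∫ x in c..d, θ x * V W W1 c d x := by
          have : ∫ x in c..d, |q x| = ∫ x in c..d, q x := by
            apply intervalIntegral.integral_congr
            intro x hx
            rw [Set.uIcc_of_le hcd] at hx
            exact abs_of_nonneg (hs x hx)
          linarith
        rw [e1, ← intervalIntegral.integral_add ((by fun_prop : Continuous fun x =>
          φ (u x) - θ x * u x).intervalIntegrable _ _) ((by fun_prop : Continuous fun x =>
          θ x * V W W1 c d x).intervalIntegrable _ _)]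
        apply intervalIntegral.integral_mono_on hcd
        · exact (by fun_prop : Continuous fun x =>
            φ (u x) - θ x * u x + θ x * V W W1 c d x).intervalIntegrable _ _
        · exact (by fun_prop : Continuous fun x => φ (V W W1 c d x)).intervalIntegrable _ _
        · intro x _
          have := hp.supp (u x) (V W W1 c d x)
          simp only [hθ]
          linarith
      · have e1 : ∫ x in c..d, |q x| = ∫ x in c..d, -(θ x * V W W1 c d x) := by
          have : ∫ x in c..d, |q x| = ∫ x in c..d, -q x := by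
            apply intervalIntegral.integral_congr
            intro x hx
            rw [Set.uIcc_of_le hcd] at hx
            exact abs_of_nonpos (hs x hx)
          rw [this, intervalIntegral.integral_neg, intervalIntegral.integral_neg]
          linarith
        rw [e1, ← intervalIntegral.integral_add ((by fun_prop : Continuous fun x =>
          φ (u x) - θ x * u x).intervalIntegrable _ _) ((by fun_prop : Continuous fun x =>
          -(θ x * V W W1 c d x)).intervalIntegrable _ _)]
        apply intervalIntegral.integral_mono_on hcd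
        · exact (by fun_prop : Continuous fun x =>
            φ (u x) - θ x * u x + -(θ x * V W W1 c d x)).intervalIntegrable _ _
        · exact (by fun_prop : Continuous fun x => φ (V W W1 c d x)).intervalIntegrable _ _
        · intro x _
          have := hp.supp (u x) (-V W W1 c d x)
          rw [hp.even] at this
          simp only [hθ]
          linarith)
  have hfin : ∫ x in A..B, ((φ (u x) - θ x * u x) + |q x|)
      = (∫ x in A..B, φ (u x)) - (∫ x in A..B, θ x * u x) + ∫ x in A..B, |q x| := by
    rw [intervalIntegral.integral_add ((by fun_prop : Continuous fun x =>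
        φ (u x) - θ x * u x).intervalIntegrable _ _) (hqc.abs.intervalIntegrable _ _),
      intervalIntegral.integral_sub ((by fun_prop : Continuous fun x =>
        φ (u x)).intervalIntegrable _ _) ((by fun_prop : Continuous fun x =>
        θ x * u x).intervalIntegrable _ _)]
  rw [hfin] at hch2
  unfold Phi at hch2
  linarith

end

end Pool.Agent.H16.ND
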