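import Mathlib
import Pool.Graph.R_seed8.Helper611.BS.Def2
import Pool.Graph.R_seed8.Helper611.BS.B1
import Pool.Graph.R_seed8.Helper611.BS.T1
import Pool.Graph.R_seed8.Helper611.BS.T3
import Pool.Graph.R_seed8.Helper611.BS.T4
import Pool.Agent.H16.ND.Dual

set_option autoImplicit false

namespace Pool.Agent.H16.ND
open MeasureTheory Pool.H611.BS

/-- first two derivatives of a real-rooted monic polynomial -/
lemma prod_deriv (S : Finset ℝ) : ∃ w1 w2 : ℝ → ℝ,
    (∀ x, HasDerivAt (fun x => ∏ y ∈ S, (x - y)) (w1 x) x) ∧ (∀ x, HasDerivAt w1 (w2 x) x) ∧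
    Continuous w2 ∧ ∀ x, (∏ y ∈ S, (x - y)) * w2 x ≤ (w1 x) ^ 2 := by
  induction S using Finset.induction_on with
  | empty =>
    refine ⟨fun _ => 0, fun _ => 0, ?_, ?_, continuous_const, ?_⟩
    · intro x; simpa using hasDerivAt_const x (1 : ℝ)
    · intro x; exact hasDerivAt_const x (0 : ℝ)
    · intro x; simp
  | insert y S hy ih =>
    obtain ⟨w1, w2, h1, h2, h3, h4⟩ := ih
    have hw1c : Continuous w1 := continuous_iff_continuousAt.2 fun t => (h2 t).continuousAt
    refine ⟨fun x => (∏ z ∈ S, (x - z)) + (x - y) * w1 x, fun x => 2 * w1 x + (x - y) * w2 x,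
      ?_, ?_, ?_, ?_⟩
    · intro x
      have e : (fun x => ∏ z ∈ insert y S, (x - z)) = fun x => (x - y) * ∏ z ∈ S, (x - z) := by
        funext x; rw [Finset.prod_insert hy]
      rw [e]
      have := ((hasDerivAt_id x).sub_const y).mul (h1 x)
      exact this.congr_deriv (by simp)
    · intro x
      have := (h1 x).add (((hasDerivAt_id x).sub_const y).mul (h2 x))
      exact this.congr_deriv (by simp; ring)
    · fun_prop
    · intro x
      rw [Finset.prod_insert hy]
      have h := h4 x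
      set w := ∏ z ∈ S, (x - z)
      have h5 : 0 ≤ (x - y) ^ 2 * ((w1 x) ^ 2 - w * w2 x) := mul_nonneg (sq_nonneg _) (by linarith)
      nlinarith [sq_nonneg w]

/-- the factorisations attached to two nodes -/
lemma factor (q : ℕ) (x : Fin (q + 2) → ℝ) (hx : Function.Injective x)
    (hx1 : ∀ i, x i ∈ Set.Icc (-1 : ℝ) 1) (f : ℝ → ℝ)
    (hf : ContDiff ℝ ((q + 1 : ℕ) : WithTop ℕ∞) f)
    (hlip : LipschitzOnWith 1 (iteratedDeriv (q + 1) f) (Set.Icc (-1 : ℝ) 1))
    (h0 : ∀ i, f (x i) = 0) (a b : ℝ) (ha : ∃ i, x i = a) (hb : ∃ i, x i = b) (hab : a < b) :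
    ∃ U V : ℝ → ℝ, ContDiff ℝ 1 U ∧ ContDiff ℝ 1 V ∧
      MonotoneOn (deriv U) (Set.Icc (-1 : ℝ) 1) ∧ MonotoneOn (deriv V) (Set.Icc (-1 : ℝ) 1) ∧
      U a = 0 ∧ U b = 0 ∧ V a = 0 ∧ V b = 0 ∧
      (∀ s, (∏ i, (s - x i)) / ((q + 2 : ℕ).factorial : ℝ) - f s =
        (∏ y ∈ ((Finset.univ.image x).erase a).erase b, (s - y)) * U s) ∧
      (∀ s, (∏ i, (s - x i)) / ((q + 2 : ℕ).factorial : ℝ) + f s =
        (∏ y ∈ ((Finset.univ.image x).erase a).erase b, (s - y)) * V s) ∧
      (∀ s, (∏ i, (s - x i)) / ((q + 2 : ℕ).factorial : ℝ) =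
        (∏ y ∈ ((Finset.univ.image x).erase a).erase b, (s - y)) *
          ((s - a) * (s - b) / ((q + 2 : ℕ).factorial : ℝ))) := by
  set ω : ℝ → ℝ := fun y => (∏ i, (y - x i)) / ((q + 2 : ℕ).factorial : ℝ) with hω
  have hωc : ContDiff ℝ ((q + 1 : ℕ) : WithTop ℕ∞) ω := by
    rw [hω]
    apply ContDiff.div_const
    apply contDiff_prod
    intro i _
    fun_prop
  have hω0 : ∀ i, ω (x i) = 0 := by
    intro i
    simp only [hω]
    rw [Finset.prod_eq_zero (Finset.mem_univ i) (sub_self _), zero_div]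
  have hωd : ∀ y, iteratedDeriv (q + 1) ω y = y - (∑ i, x i) / (q + 2) := fun y =>
    omega_deriv q x y
  have hfl : ∀ u ∈ Set.Icc (-1 : ℝ) 1, ∀ v ∈ Set.Icc (-1 : ℝ) 1,
      |iteratedDeriv (q + 1) f u - iteratedDeriv (q + 1) f v| ≤ |u - v| := by
    intro u hu v hv
    have := hlip.dist_le_mul u hu v hv
    simpa [Real.dist_eq] using this
  have monP : Mon (1 + q) (fun s => ω s - f s) := by
    rw [add_comm 1 q]
    refine ⟨hωc.sub hf, ?_⟩
    intro u hu v hv huv
    have e : ∀ s, iteratedDeriv (q + 1) (fun s => ω s - f s) s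
        = iteratedDeriv (q + 1) ω s - iteratedDeriv (q + 1) f s := fun s =>
      iteratedDeriv_fun_sub hωc.contDiffAt hf.contDiffAt
    rw [e, e, hωd, hωd]
    have := hfl u hu v hv
    rw [abs_of_nonpos (show u - v ≤ 0 by linarith)] at this
    have h3 := abs_le.mp this
    linarith [h3.1, h3.2]
  have monQ : Mon (1 + q) (fun s => ω s + f s) := by
    rw [add_comm 1 q]
    refine ⟨hωc.add hf, ?_⟩
    intro u hu v hv huv
    have e : ∀ s, iteratedDeriv (q + 1) (fun s => ω s + f s) s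
        = iteratedDeriv (q + 1) ω s + iteratedDeriv (q + 1) f s := fun s =>
      iteratedDeriv_fun_add hωc.contDiffAt hf.contDiffAt
    rw [e, e, hωd, hωd]
    have := hfl u hu v hv
    rw [abs_of_nonpos (show u - v ≤ 0 by linarith)] at this
    have h3 := abs_le.mp this
    linarith [h3.1, h3.2]
  have haT : a ∈ Finset.univ.image x := by
    obtain ⟨i, rfl⟩ := ha; exact Finset.mem_image_of_mem _ (Finset.mem_univ _)
  have hbT : b ∈ (Finset.univ.image x).erase a := by
    obtain ⟨i, rfl⟩ := hb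
    exact Finset.mem_erase.2 ⟨hab.ne', Finset.mem_image_of_mem _ (Finset.mem_univ _)⟩
  set S : Finset ℝ := ((Finset.univ.image x).erase a).erase b with hS
  have hcard : S.card = q := by
    rw [hS, Finset.card_erase_of_mem hbT, Finset.card_erase_of_mem haT,
      Finset.card_image_of_injective _ hx]
    simp
  have hSmem : ∀ y ∈ S, ∃ i, x i = y := by
    intro y hy
    rw [hS] at hy
    have h1 := Finset.mem_of_mem_erase (Finset.mem_of_mem_erase hy)
    simpa using h1
  have haS : a ∉ S := by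
    rw [hS]; intro h
    exact Finset.notMem_erase _ _ (Finset.mem_of_mem_erase h)
  have hbS : b ∉ S := by
    rw [hS]; exact Finset.notMem_erase _ _
  obtain ⟨U, hU, hPU, hUz⟩ := mon_factor mon_div 1 S (fun s => ω s - f s)
    (by rw [hcard]; exact monP)
    (fun y hy => by obtain ⟨i, rfl⟩ := hSmem y hy; exact hx1 i)
    (fun y hy => by obtain ⟨i, rfl⟩ := hSmem y hy; simp [hω0, h0])
  obtain ⟨V, hV, hQV, hVz⟩ := mon_factor mon_div 1 S (fun s => ω s + f s)
    (by rw [hcard]; exact monQ)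
    (fun y hy => by obtain ⟨i, rfl⟩ := hSmem y hy; exact hx1 i)
    (fun y hy => by obtain ⟨i, rfl⟩ := hSmem y hy; simp [hω0, h0])
  have hωa : ω a = 0 := by obtain ⟨i, rfl⟩ := ha; exact hω0 i
  have hωb : ω b = 0 := by obtain ⟨i, rfl⟩ := hb; exact hω0 i
  have hfa : f a = 0 := by obtain ⟨i, rfl⟩ := ha; exact h0 i
  have hfb : f b = 0 := by obtain ⟨i, rfl⟩ := hb; exact h0 i
  refine ⟨U, V, by simpa using hU.1, by simpa using hV.1, ?_, ?_, hUz _ haS (by simp [hωa, hfa]),
    hUz _ hbS (by simp [hωb, hfb]), hVz _ haS (by simp [hωa, hfa]),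
    hVz _ hbS (by simp [hωb, hfb]), hPU, hQV, ?_⟩
  · have := hU.2; rwa [iteratedDeriv_one] at this
  · have := hV.2; rwa [iteratedDeriv_one] at this
  · intro s
    have e1 : ∏ i, (s - x i) = ∏ y ∈ Finset.univ.image x, (s - y) := by
      rw [Finset.prod_image (fun i _ j _ h => hx h)]
    show (∏ i, (s - x i)) / _ = _
    rw [e1, ← Finset.mul_prod_erase _ (fun y => s - y) haT,
      ← Finset.mul_prod_erase _ (fun y => s - y) hbT, ← hS]
    ring

lemma Cvx.scale {φ φ1 φ2 : ℝ → ℝ} (h : Cvx φ φ1 φ2) (κ : ℝ) :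
    Cvx (fun t => φ (κ * t)) (fun t => κ * φ1 (κ * t)) (fun t => κ ^ 2 * φ2 (κ * t)) where
  d1 t := by
    have := (h.d1 (κ * t)).comp t ((hasDerivAt_id t).const_mul κ)
    exact this.congr_deriv (by simp; ring)
  d2 t := by
    have := ((h.d2 (κ * t)).comp t ((hasDerivAt_id t).const_mul κ)).const_mul κ
    exact this.congr_deriv (by simp; ring)
  c2 := by have := h.c2; fun_prop
  nn t := mul_nonneg (sq_nonneg _) (h.nn _)
  zero := by simp [h.zero]
  even t := by
    have := h.even (κ * t)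
    rw [← this]; congr 1; ring

/-- the inequality between two consecutive nodes -/
lemma inner {φ φ1 φ2 : ℝ → ℝ} (hp : Cvx φ φ1 φ2)
    (q : ℕ) (x : Fin (q + 2) → ℝ) (hx : Function.Injective x)
    (hx1 : ∀ i, x i ∈ Set.Icc (-1 : ℝ) 1) (f : ℝ → ℝ)
    (hf : ContDiff ℝ ((q + 1 : ℕ) : WithTop ℕ∞) f)
    (hlip : LipschitzOnWith 1 (iteratedDeriv (q + 1) f) (Set.Icc (-1 : ℝ) 1))
    (h0 : ∀ i, f (x i) = 0) (a b : ℝ) (ha : ∃ i, x i = a) (hb : ∃ i, x i = b) (hab : a < b)
    (hcons : ∀ i, x i ∉ Set.Ioo a b) :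
    ∫ s in a..b, φ (deriv f s) ≤ ∫ s in a..b,
      φ (deriv (fun y => (∏ i, (y - x i)) / ((q + 2 : ℕ).factorial : ℝ)) s) := by
  obtain ⟨U, V', hU, hV, hUm, hVm, hUa, hUb, hVa, hVb, hPU, hQV, hωS⟩ :=
    factor q x hx hx1 f hf hlip h0 a b ha hb hab
  set ω : ℝ → ℝ := fun y => (∏ i, (y - x i)) / ((q + 2 : ℕ).factorial : ℝ) with hω
  set S : Finset ℝ := ((Finset.univ.image x).erase a).erase b with hS
  obtain ⟨w1, w2, hw1, hw2, hw2c, hlog⟩ := prod_deriv S
  set w : ℝ → ℝ := fun s => ∏ y ∈ S, (s - y) with hw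
  have ha1 : -1 ≤ a := by obtain ⟨i, rfl⟩ := ha; exact (hx1 i).1
  have hb1 : b ≤ 1 := by obtain ⟨i, rfl⟩ := hb; exact (hx1 i).2
  have hsub : Set.Icc a b ⊆ Set.Icc (-1 : ℝ) 1 := Set.Icc_subset_Icc ha1 hb1
  have hwc : Continuous w := continuous_iff_continuousAt.2 fun t => (hw1 t).continuousAt
  have hwne : ∀ s ∈ Set.Icc a b, w s ≠ 0 := by
    intro s hs h
    simp only [hw] at h
    obtain ⟨y, hy, hy0⟩ := Finset.prod_eq_zero_iff.1 h
    have hsy : s = y := by linarith
    rw [hS, Finset.mem_erase, Finset.mem_erase] at hy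
    obtain ⟨hyb, hya, hyT⟩ := hy
    obtain ⟨i, -, hi⟩ := Finset.mem_image.1 hyT
    refine hcons i ?_
    rw [hi]
    subst hsy
    exact ⟨lt_of_le_of_ne hs.1 (Ne.symm hya), lt_of_le_of_ne hs.2 hyb⟩
  -- constant sign
  obtain ⟨σ, hσ, hσw⟩ : ∃ σ : ℝ, σ * σ = 1 ∧ ∀ s ∈ Set.Icc a b, 0 < σ * w s := by
    by_cases hwa : 0 < w a
    · refine ⟨1, by norm_num, fun s hs => ?_⟩
      rw [one_mul]
      by_contra hcon
      push Not at hcon
      obtain ⟨z, hz, hz0⟩ := intermediate_value_Icc' hs.1 hwc.continuousOn ⟨hcon, hwa.le⟩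
      exact hwne z ⟨hz.1, hz.2.trans hs.2⟩ hz0
    · have hwa' : w a < 0 := lt_of_le_of_ne (not_lt.1 hwa) (hwne a ⟨le_rfl, hab.le⟩)
      refine ⟨-1, by norm_num, fun s hs => ?_⟩
      by_contra hcon
      have hcon' : 0 ≤ w s := by linarith
      obtain ⟨z, hz, hz0⟩ := intermediate_value_Icc hs.1 hwc.continuousOn ⟨hwa'.le, hcon'⟩
      exact hwne z ⟨hz.1, hz.2.trans hs.2⟩ hz0
  set κ : ℝ := 2 / ((q + 2 : ℕ).factorial : ℝ) with hκ
  have hfac : (0 : ℝ) < ((q + 2 : ℕ).factorial : ℝ) := by exact_mod_cast Nat.factorial_pos _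
  have hκ0 : 0 < κ := by rw [hκ]; positivity
  have hwt : Wt a b (fun s => σ * w s) (fun s => σ * w1 s) (fun s => σ * w2 s) :=
    { d1 := fun s => (hw1 s).const_mul σ
      d2 := fun s => (hw2 s).const_mul σ
      c2 := by fun_prop
      pos := hσw
      cvx := fun s _ => by
        have h1 := hlog s
        have h2 : σ * w s * (σ * w2 s) = w s * w2 s := by
          calc σ * w s * (σ * w2 s) = (σ * σ) * (w s * w2 s) := by ring
            _ = w s * w2 s := by rw [hσ, one_mul]
        have h3 : (σ * w1 s) ^ 2 = (w1 s) ^ 2 := by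
          calc (σ * w1 s) ^ 2 = (σ * σ) * (w1 s) ^ 2 := by ring
            _ = (w1 s) ^ 2 := by rw [hσ, one_mul]
        rw [h2, h3]
        have h4 : w s * w2 s ≤ (w1 s) ^ 2 := h1
        nlinarith [sq_nonneg (w1 s)] }
  have hUd : ∀ s, HasDerivAt U (deriv U s) s := fun s =>
    (hU.differentiable one_ne_zero s).hasDerivAt
  have hVd : ∀ s, HasDerivAt V' (deriv V' s) s := fun s =>
    (hV.differentiable one_ne_zero s).hasDerivAt
  have hU'c : Continuous (deriv U) := hU.continuous_deriv le_rfl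
  have hV'c : Continuous (deriv V') := hV.continuous_deriv le_rfl
  -- the sum of the two factors
  have hsum : ∀ s ∈ Set.Icc a b, U s + V' s = κ * ((s - a) * (s - b)) := by
    intro s hs
    have h1 := hPU s
    have h2 := hQV s
    have h3 := hωS s
    have h4 : w s * (U s + V' s) = w s * (κ * ((s - a) * (s - b))) := by
      have : w s * (U s + V' s) = 2 * ω s := by
        simp only [hw, hω]; linarith
      rw [this]
      simp only [hω, hw, hκ]
      rw [h3]; ring
    exact mul_left_cancel₀ (hwne s hs) h4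
  have hsumd : ∀ s ∈ Set.Icc a b, deriv U s + deriv V' s = κ * (2 * s - a - b) := by
    have hg : ∀ s, HasDerivAt (fun s => U s + V' s - κ * ((s - a) * (s - b)))
        (deriv U s + deriv V' s - κ * (2 * s - a - b)) s := by
      intro s
      have h1 := ((hUd s).add (hVd s)).sub
        ((((hasDerivAt_id s).sub_const a).mul ((hasDerivAt_id s).sub_const b)).const_mul κ)
      exact h1.congr_deriv (by simp only [id_eq]; ring)
    have hopen : ∀ s ∈ Set.Ioo a b, deriv U s + deriv V' s - κ * (2 * s - a - b) = 0 := by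
      intro s hs
      have h1 : HasDerivAt (fun s => U s + V' s - κ * ((s - a) * (s - b))) 0 s := by
        have h2 : (fun s => U s + V' s - κ * ((s - a) * (s - b))) =ᶠ[nhds s] fun _ => 0 := by
          filter_upwards [Ioo_mem_nhds hs.1 hs.2] with t ht
          rw [hsum t ⟨ht.1.le, ht.2.le⟩, sub_self]
        exact (hasDerivAt_const s (0 : ℝ)).congr_of_eventuallyEq h2
      exact (hg s).unique h1
    intro s hs
    have hcl : IsClosed {s : ℝ | deriv U s + deriv V' s - κ * (2 * s - a - b) = 0} :=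
      isClosed_eq (by fun_prop) continuous_const
    have h2 : Set.Icc a b ⊆ {s : ℝ | deriv U s + deriv V' s - κ * (2 * s - a - b) = 0} := by
      rw [← closure_Ioo hab.ne]
      exact hcl.closure_subset_iff.2 hopen
    have := h2 hs
    simp only [Set.mem_ofPred_eq] at this
    linarith
  -- the two-node function
  have hmain := interval_main hab hwt (hp.scale κ) (fun s => σ * (V' s - U s) / (2 * κ))
    (fun s => σ * (deriv V' s - deriv U s) / (2 * κ))
    (fun s => (((hVd s).sub (hUd s)).const_mul σ).div_const (2 * κ)) (by fun_prop) ?_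
    (by simp [hVa, hUa]) (by simp [hVb, hUb])
  · have e1 : ∀ s, κ * (σ * w1 s * (σ * (V' s - U s) / (2 * κ)) +
        σ * w s * (σ * (deriv V' s - deriv U s) / (2 * κ))) = deriv f s := by
      intro s
      have hf' : HasDerivAt f (w1 s * ((V' s - U s) / 2) + w s * ((deriv V' s - deriv U s) / 2))
          s := by
        have h1 : f = fun s => w s * ((V' s - U s) / 2) := by
          funext t
          have h1 := hPU t
          have h2 := hQV t
          simp only [hw]
          linarith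
        rw [h1]
        exact (hw1 s).mul (((hVd s).sub (hUd s)).div_const 2)
      rw [hf'.deriv]
      have h2 : κ * (σ * w1 s * (σ * (V' s - U s) / (2 * κ)) +
        σ * w s * (σ * (deriv V' s - deriv U s) / (2 * κ))) = (σ * σ) * (κ / κ) *
          (w1 s * ((V' s - U s) / 2) + w s * ((deriv V' s - deriv U s) / 2)) := by
        field_simp
      rw [h2, hσ, div_self hκ0.ne', one_mul, one_mul]
    have e2 : ∀ s, φ (κ * V (fun s => σ * w s) (fun s => σ * w1 s) a b s) = φ (deriv ω s) := by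
      intro s
      have hω' : HasDerivAt ω (w1 s * (κ * ((s - a) * (s - b)) / 2) +
          w s * (κ * (2 * s - a - b) / 2)) s := by
        have h1 : ω = fun s => w s * (κ * ((s - a) * (s - b)) / 2) := by
          funext t
          have := hωS t
          simp only [hω, hw, hκ]
          rw [this]; ring
        rw [h1]
        have h2 : HasDerivAt (fun s : ℝ => κ * ((s - a) * (s - b)) / 2)
            (κ * (2 * s - a - b) / 2) s := by
          have := ((((hasDerivAt_id s).sub_const a).mul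
            ((hasDerivAt_id s).sub_const b)).const_mul κ).div_const 2
          exact this.congr_deriv (by simp only [id_eq]; ring)
        exact (hw1 s).mul h2
      rw [hω'.deriv]
      have h3 : κ * V (fun s => σ * w s) (fun s => σ * w1 s) a b s
          = -σ * (w1 s * (κ * ((s - a) * (s - b)) / 2) + w s * (κ * (2 * s - a - b) / 2)) := by
        unfold V; ring
      rw [h3]
      rcases mul_self_eq_one_iff.1 hσ with h | h
      · rw [h, ← hp.even]; congr 1; ring
      · rw [h]; congr 1; ring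
    simp only [e1, e2] at hmain
    exact hmain
  · -- Lipschitz
    apply LipschitzOnWith.of_dist_le_mul
    intro s hs t ht
    wlog hst : s ≤ t generalizing s t
    · rw [dist_comm, dist_comm s t]
      exact this t ht s hs (le_of_not_ge hst)
    have m1 := hUm (hsub hs) (hsub ht) hst
    have m2 := hVm (hsub hs) (hsub ht) hst
    have e1 := hsumd s hs
    have e2 := hsumd t ht
    rw [Real.dist_eq, Real.dist_eq, NNReal.coe_one, one_mul, abs_sub_comm s t,
      abs_of_nonneg (by linarith : (0:ℝ) ≤ t - s)]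
    have e3 : σ * (deriv V' s - deriv U s) / (2 * κ) - σ * (deriv V' t - deriv U t) / (2 * κ)
        = σ * (((deriv V' s - deriv U s) - (deriv V' t - deriv U t)) / (2 * κ)) := by ring
    rw [e3, abs_mul]
    have hσ1 : |σ| = 1 := by
      rcases mul_self_eq_one_iff.1 hσ with h | h
      · rw [h, abs_one]
      · rw [h, abs_neg, abs_one]
    rw [hσ1, one_mul, abs_div, abs_of_pos (by positivity : 0 < 2 * κ),
      div_le_iff₀ (by positivity), abs_le]
    constructor
    · nlinarith
    · nlinarith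

/-- the pointwise inequality outside the hull of the nodes -/
lemma outer (q : ℕ) (x : Fin (q + 2) → ℝ) (hx : Function.Injective x)
    (hx1 : ∀ i, x i ∈ Set.Icc (-1 : ℝ) 1) (f : ℝ → ℝ)
    (hf : ContDiff ℝ ((q + 1 : ℕ) : WithTop ℕ∞) f)
    (hlip : LipschitzOnWith 1 (iteratedDeriv (q + 1) f) (Set.Icc (-1 : ℝ) 1))
    (h0 : ∀ i, f (x i) = 0) (s : ℝ) (hs : s ∈ Set.Icc (-1 : ℝ) 1)
    (hout : (∀ i, s ≤ x i) ∨ (∀ i, x i ≤ s)) :
    |deriv f s| ≤ |deriv (fun y => (∏ i, (y - x i)) / ((q + 2 : ℕ).factorial : ℝ)) s| := by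
  have : Nonempty (Fin (q + 2)) := ⟨0⟩
  obtain ⟨i0, hi0⟩ := Finite.exists_min x
  obtain ⟨i1, hi1⟩ := Finite.exists_max x
  have hab : x i0 < x i1 := by
    have h01 : x (0 : Fin (q + 2)) ≠ x 1 := by
      intro h; have := hx h; simp at this
    rcases lt_or_gt_of_ne h01 with h | h
    · have := hi0 0; have := hi1 1; linarith
    · have := hi0 1; have := hi1 0; linarith
  obtain ⟨U, V', hU, hV, hUm, hVm, hUa, hUb, hVa, hVb, hPU, hQV, hωS⟩ :=
    factor q x hx hx1 f hf hlip h0 (x i0) (x i1) ⟨i0, rfl⟩ ⟨i1, rfl⟩ hab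
  set ω : ℝ → ℝ := fun y => (∏ i, (y - x i)) / ((q + 2 : ℕ).factorial : ℝ) with hω
  have hkey := outside_nonneg (x i0) (x i1) hab (hx1 i0).1 (hx1 i1).2
    (((Finset.univ.image x).erase (x i0)).erase (x i1))
    (fun y hy => by
      have h1 := Finset.mem_of_mem_erase (Finset.mem_of_mem_erase hy)
      obtain ⟨i, -, rfl⟩ := Finset.mem_image.1 h1
      exact ⟨hi0 i, hi1 i⟩) U V' hU hV hUm hVm hUa hUb hVa hVb s (by
      rcases hout with h | h
      · exact Or.inl ⟨hs.1, h i0⟩
      · exact Or.inr ⟨h i1, hs.2⟩)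
  have eP : (fun s : ℝ => (∏ y ∈ ((Finset.univ.image x).erase (x i0)).erase (x i1), (s - y)) * U s)
      = fun s => ω s - f s := by
    funext s; exact (hPU s).symm
  have eQ : (fun s : ℝ => (∏ y ∈ ((Finset.univ.image x).erase (x i0)).erase (x i1), (s - y)) * V' s)
      = fun s => ω s + f s := by
    funext s; exact (hQV s).symm
  rw [eP, eQ] at hkey
  have hωc : ContDiff ℝ ((q + 1 : ℕ) : WithTop ℕ∞) ω := by
    rw [hω]
    apply ContDiff.div_const
    apply contDiff_prod
    intro i _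
    fun_prop
  have hone : ((1 : ℕ) : WithTop ℕ∞) ≤ ((q + 1 : ℕ) : WithTop ℕ∞) := by
    exact_mod_cast Nat.le_add_left 1 q
  have hf1 : ContDiff ℝ 1 f := by simpa using hf.of_le hone
  have hω1 : ContDiff ℝ 1 ω := by simpa using hωc.of_le hone
  have dP : deriv (fun s => ω s - f s) s = deriv ω s - deriv f s :=
    deriv_fun_sub (hω1.differentiable (by norm_num) s) (hf1.differentiable (by norm_num) s)
  have dQ : deriv (fun s => ω s + f s) s = deriv ω s + deriv f s :=
    deriv_fun_add (hω1.differentiable (by norm_num) s) (hf1.differentiable (by norm_num) s)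
  rw [dP, dQ] at hkey
  apply sq_le_sq.1
  nlinarith

end Pool.Agent.H16.ND
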