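import Mathlib
import Pool.Agent.H16.ND.Factor

set_option autoImplicit false

namespace Pool.Agent.H16.ND
open MeasureTheory

/-- smooth approximation of an even convex function -/
lemma approx (Ψ : ℝ → ℝ) (hconv : ConvexOn ℝ Set.univ Ψ) (heven : ∀ t, Ψ (-t) = Ψ t)
    (M ε : ℝ) (hε : 0 < ε) : ∃ φ φ1 φ2 : ℝ → ℝ, Cvx φ φ1 φ2 ∧
      ∀ t, |t| ≤ M → |φ t - (Ψ t - Ψ 0)| ≤ ε := by
  have hΨc : Continuous Ψ := by
    have := hconv.continuousOn isOpen_univ
    rwa [continuousOn_univ] at this
  wlog hM : 0 ≤ M generalizing M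
  · obtain ⟨φ, φ1, φ2, h1, -⟩ := this 0 le_rfl
    exact ⟨φ, φ1, φ2, h1, fun t ht => absurd ((abs_nonneg t).trans ht) hM⟩
  have huc := (isCompact_Icc (a := -(M + 1)) (b := M + 1)).uniformContinuousOn_of_continuous
    hΨc.continuousOn
  rw [Metric.uniformContinuousOn_iff] at huc
  obtain ⟨δ0, hδ0, hδ0'⟩ := huc (ε / 2) (by positivity)
  set δ : ℝ := min (δ0 / 2) 1 with hδ
  have hδpos : 0 < δ := lt_min (by positivity) one_pos
  have hδlt : δ < δ0 := lt_of_le_of_lt (min_le_left _ _) (by linarith)
  have hδ1 : δ ≤ 1 := min_le_right _ _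
  have hclose : ∀ t s, |t| ≤ M → |s - t| ≤ δ → |Ψ s - Ψ t| ≤ ε / 2 := by
    intro t s ht hs
    have ht' := abs_le.1 ht
    have hs' := abs_le.1 hs
    have := hδ0' s ⟨by linarith, by linarith⟩ t ⟨by linarith, by linarith⟩
      (by rw [Real.dist_eq]; linarith)
    rw [Real.dist_eq] at this
    exact this.le
  set P1 : ℝ → ℝ := fun t => ∫ s in (0 : ℝ)..t, Ψ s with hP1
  have hP1d : ∀ t, HasDerivAt P1 (Ψ t) t := fun t =>
    intervalIntegral.integral_hasDerivAt_right (hΨc.intervalIntegrable _ _)
      (hΨc.stronglyMeasurableAtFilter _ _) hΨc.continuousAt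
  have hP1c : Continuous P1 := continuous_iff_continuousAt.2 fun t => (hP1d t).continuousAt
  set P2 : ℝ → ℝ := fun t => ∫ s in (0 : ℝ)..t, P1 s with hP2
  have hP2d : ∀ t, HasDerivAt P2 (P1 t) t := fun t =>
    intervalIntegral.integral_hasDerivAt_right (hP1c.intervalIntegrable _ _)
      (hP1c.stronglyMeasurableAtFilter _ _) hP1c.continuousAt
  have hP1odd : ∀ t, P1 (-t) = -P1 t := by
    intro t
    have h1 : ∫ s in (0 : ℝ)..(-t), Ψ s = ∫ s in (0 : ℝ)..(-t), Ψ (-s) := by
      simp only [heven]
    simp only [hP1]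
    rw [h1, intervalIntegral.integral_comp_neg (fun s => Ψ s)]
    rw [neg_neg, neg_zero, intervalIntegral.integral_symm]
  have hP2even : ∀ t, P2 (-t) = P2 t := by
    intro t
    have h1 : ∫ s in (0 : ℝ)..(-t), P1 s = ∫ s in (0 : ℝ)..(-t), -P1 (-s) := by
      simp only [hP1odd, neg_neg]
    simp only [hP2]
    rw [h1, intervalIntegral.integral_comp_neg (fun s => -P1 s)]
    rw [neg_neg, neg_zero, intervalIntegral.integral_symm, intervalIntegral.integral_neg, neg_neg]
  set g : ℝ → ℝ := fun t => (P2 (t + δ) - 2 * P2 t + P2 (t - δ)) / δ ^ 2 with hg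
  have hgclose : ∀ t, |t| ≤ M → |g t - Ψ t| ≤ ε / 2 := by
    intro t ht
    have hk : ∀ c : ℝ, ∀ u, HasDerivAt (fun u => P2 (t + u) - 2 * P2 t + P2 (t - u) - u ^ 2 * c)
        ((∫ s in (t - u)..(t + u), Ψ s) - 2 * u * c) u := by
      intro c u
      have h1 : HasDerivAt (fun u => P2 (t + u)) (P1 (t + u)) u := by
        have := (hP2d (t + u)).comp u ((hasDerivAt_id u).const_add t)
        exact this.congr_deriv (by simp)
      have h2 : HasDerivAt (fun u => P2 (t - u)) (-P1 (t - u)) u := by
        have := (hP2d (t - u)).comp u ((hasDerivAt_id u).const_sub t)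
        exact this.congr_deriv (by simp)
      have h3 : HasDerivAt (fun u : ℝ => u ^ 2 * c) (2 * u * c) u := by
        have := ((hasDerivAt_id u).pow 2).mul_const c
        exact this.congr_deriv (by simp)
      have h4 := ((h1.sub_const (2 * P2 t)).add h2).sub h3
      refine h4.congr_deriv ?_
      have h5 : ∫ s in (t - u)..(t + u), Ψ s = P1 (t + u) - P1 (t - u) := by
        simp only [hP1]
        rw [intervalIntegral.integral_interval_sub_left (hΨc.intervalIntegrable _ _)
          (hΨc.intervalIntegrable _ _)]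
      rw [h5]; ring
    have hup : P2 (t + δ) - 2 * P2 t + P2 (t - δ) ≤ δ ^ 2 * (Ψ t + ε / 2) := by
      have hanti : AntitoneOn (fun u => P2 (t + u) - 2 * P2 t + P2 (t - u)
          - u ^ 2 * (Ψ t + ε / 2)) (Set.Icc 0 δ) := by
        apply antitoneOn_of_deriv_nonpos (convex_Icc 0 δ)
        · intro u _; exact (hk _ u).continuousAt.continuousWithinAt
        · intro u _; exact (hk _ u).differentiableAt.differentiableWithinAt
        · intro u hu
          rw [interior_Icc] at hu
          rw [(hk _ u).deriv]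
          have h1 : ∫ s in (t - u)..(t + u), Ψ s ≤ ∫ s in (t - u)..(t + u), (Ψ t + ε / 2) := by
            apply intervalIntegral.integral_mono_on (by linarith [hu.1])
              (hΨc.intervalIntegrable _ _) intervalIntegrable_const
            intro s hs
            have := hclose t s ht (abs_le.2 ⟨by linarith [hs.1, hu.2], by linarith [hs.2, hu.2]⟩)
            linarith [(abs_le.1 this).2]
          rw [intervalIntegral.integral_const, smul_eq_mul] at h1
          nlinarith
      have := hanti ⟨le_rfl, hδpos.le⟩ ⟨hδpos.le, le_rfl⟩ hδpos.le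
      simp only [add_zero, sub_zero] at this
      nlinarith
    have hlo : δ ^ 2 * (Ψ t - ε / 2) ≤ P2 (t + δ) - 2 * P2 t + P2 (t - δ) := by
      have hmono : MonotoneOn (fun u => P2 (t + u) - 2 * P2 t + P2 (t - u)
          - u ^ 2 * (Ψ t - ε / 2)) (Set.Icc 0 δ) := by
        apply monotoneOn_of_deriv_nonneg (convex_Icc 0 δ)
        · intro u _; exact (hk _ u).continuousAt.continuousWithinAt
        · intro u _; exact (hk _ u).differentiableAt.differentiableWithinAt
        · intro u hu
          rw [interior_Icc] at hu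
          rw [(hk _ u).deriv]
          have h1 : ∫ s in (t - u)..(t + u), (Ψ t - ε / 2) ≤ ∫ s in (t - u)..(t + u), Ψ s := by
            apply intervalIntegral.integral_mono_on (by linarith [hu.1])
              intervalIntegrable_const (hΨc.intervalIntegrable _ _)
            intro s hs
            have := hclose t s ht (abs_le.2 ⟨by linarith [hs.1, hu.2], by linarith [hs.2, hu.2]⟩)
            linarith [(abs_le.1 this).1]
          rw [intervalIntegral.integral_const, smul_eq_mul] at h1
          nlinarith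
      have := hmono ⟨le_rfl, hδpos.le⟩ ⟨hδpos.le, le_rfl⟩ hδpos.le
      simp only [add_zero, sub_zero] at this
      nlinarith
    have hδ2 : 0 < δ ^ 2 := by positivity
    rw [abs_le]
    constructor
    · have : Ψ t - ε / 2 ≤ g t := by
        simp only [hg]; rw [le_div_iff₀ hδ2]; linarith
      linarith
    · have : g t ≤ Ψ t + ε / 2 := by
        simp only [hg]; rw [div_le_iff₀ hδ2]; linarith
      linarith
  have hshift : ∀ (F F' : ℝ → ℝ), (∀ t, HasDerivAt F (F' t) t) → ∀ t,
      HasDerivAt (fun t => (F (t + δ) - 2 * F t + F (t - δ)) / δ ^ 2)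
        ((F' (t + δ) - 2 * F' t + F' (t - δ)) / δ ^ 2) t := by
    intro F F' hF t
    have h1 : HasDerivAt (fun t => F (t + δ)) (F' (t + δ)) t := by
      have := (hF (t + δ)).comp t ((hasDerivAt_id t).add_const δ)
      exact this.congr_deriv (by simp)
    have h2 : HasDerivAt (fun t => F (t - δ)) (F' (t - δ)) t := by
      have := (hF (t - δ)).comp t ((hasDerivAt_id t).sub_const δ)
      exact this.congr_deriv (by simp)
    exact ((h1.sub ((hF t).const_mul 2)).add h2).div_const (δ ^ 2)
  refine ⟨fun t => g t - g 0, fun t => (P1 (t + δ) - 2 * P1 t + P1 (t - δ)) / δ ^ 2,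
    fun t => (Ψ (t + δ) - 2 * Ψ t + Ψ (t - δ)) / δ ^ 2, ?_, ?_⟩
  · refine ⟨fun t => (hshift P2 P1 hP2d t).sub_const (g 0), fun t => hshift P1 Ψ hP1d t,
      by fun_prop, ?_, by simp, ?_⟩
    · intro t
      apply div_nonneg _ (by positivity)
      have h1 := hconv.2 (Set.mem_univ (t + δ)) (Set.mem_univ (t - δ))
        (by norm_num : (0:ℝ) ≤ 1 / 2) (by norm_num : (0:ℝ) ≤ 1 / 2) (by norm_num)
      simp only [smul_eq_mul] at h1
      have e : 1 / 2 * (t + δ) + 1 / 2 * (t - δ) = t := by ring
      rw [e] at h1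
      linarith
    · intro t
      simp only [hg]
      have e1 : P2 (-t + δ) = P2 (t - δ) := by rw [← hP2even]; congr 1; ring
      have e2 : P2 (-t - δ) = P2 (t + δ) := by rw [← hP2even]; congr 1; ring
      rw [e1, e2, hP2even]
      ring
  · intro t ht
    have h1 := hgclose t ht
    have h2 := hgclose 0 (by simpa using hM)
    have e : g t - g 0 - (Ψ t - Ψ 0) = (g t - Ψ t) - (g 0 - Ψ 0) := by ring
    rw [e]
    calc |(g t - Ψ t) - (g 0 - Ψ 0)| ≤ |g t - Ψ t| + |g 0 - Ψ 0| := abs_sub _ _
      _ ≤ ε / 2 + ε / 2 := add_le_add h1 h2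
      _ = ε := by ring

/-- assembling the pieces, smooth `φ` -/
lemma total {φ φ1 φ2 : ℝ → ℝ} (hp : Cvx φ φ1 φ2)
    (q : ℕ) (x : Fin (q + 2) → ℝ) (hx : Function.Injective x)
    (hx1 : ∀ i, x i ∈ Set.Icc (-1 : ℝ) 1) (f : ℝ → ℝ)
    (hf : ContDiff ℝ ((q + 1 : ℕ) : WithTop ℕ∞) f)
    (hlip : LipschitzOnWith 1 (iteratedDeriv (q + 1) f) (Set.Icc (-1 : ℝ) 1))
    (h0 : ∀ i, f (x i) = 0) :
    ∀ (N : ℕ) (a b : ℝ), (((Finset.univ.image x)).filter (fun t => a < t ∧ t < b)).card = N →
      a ≤ b → (a = -1 ∨ a = 1 ∨ ∃ i, x i = a) → (b = -1 ∨ b = 1 ∨ ∃ i, x i = b) →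
    ∫ s in a..b, φ (deriv f s) ≤ ∫ s in a..b,
      φ (deriv (fun y => (∏ i, (y - x i)) / ((q + 2 : ℕ).factorial : ℝ)) s) := by
  set ω : ℝ → ℝ := fun y => (∏ i, (y - x i)) / ((q + 2 : ℕ).factorial : ℝ) with hω
  have hωc : ContDiff ℝ ((q + 1 : ℕ) : WithTop ℕ∞) ω := by
    rw [hω]
    apply ContDiff.div_const
    apply contDiff_prod
    intro i _
    fun_prop
  have hone : ((1 : ℕ) : WithTop ℕ∞) ≤ ((q + 1 : ℕ) : WithTop ℕ∞) := by
    exact_mod_cast Nat.le_add_left 1 q
  have hf1 : ContDiff ℝ 1 f := by simpa using hf.of_le hone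
  have hω1 : ContDiff ℝ 1 ω := by simpa using hωc.of_le hone
  have hf'c : Continuous (deriv f) := hf1.continuous_deriv le_rfl
  have hω'c : Continuous (deriv ω) := hω1.continuous_deriv le_rfl
  have hφc := hp.c0
  have i1 : ∀ a b, IntervalIntegrable (fun s => φ (deriv f s)) volume a b := fun a b =>
    (hφc.comp hf'c).intervalIntegrable _ _
  have i2 : ∀ a b, IntervalIntegrable (fun s => φ (deriv ω s)) volume a b := fun a b =>
    (hφc.comp hω'c).intervalIntegrable _ _
  have habs : ∀ u v : ℝ, |u| ≤ |v| → φ u ≤ φ v := by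
    have hev : ∀ u, φ |u| = φ u := by
      intro u
      rcases abs_choice u with h | h
      · rw [h]
      · rw [h, hp.even]
    intro u v huv
    rw [← hev u, ← hev v]
    have h1 := hp.supp |u| |v|
    have h2 := hp.one_nonneg (abs_nonneg u)
    nlinarith
  intro N
  induction N using Nat.strong_induction_on with
  | _ N ih =>
    intro a b hN hab ha hb
    rcases hab.eq_or_lt with rfl | hlt
    · simp
    by_cases hex : ∃ i, a < x i ∧ x i < b
    · obtain ⟨i, hai, hib⟩ := hex
      have hmem : x i ∈ (Finset.univ.image x).filter (fun t => a < t ∧ t < b) :=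
        Finset.mem_filter.2 ⟨Finset.mem_image_of_mem _ (Finset.mem_univ _), hai, hib⟩
      have hc1 : ((Finset.univ.image x).filter (fun t => a < t ∧ t < x i)).card < N := by
        rw [← hN]
        apply Finset.card_lt_card
        rw [Finset.ssubset_iff_of_subset]
        · exact ⟨x i, hmem, by simp⟩
        · intro t ht
          rw [Finset.mem_filter] at ht ⊢
          exact ⟨ht.1, ht.2.1, ht.2.2.trans hib⟩
      have hc2 : ((Finset.univ.image x).filter (fun t => x i < t ∧ t < b)).card < N := by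
        rw [← hN]
        apply Finset.card_lt_card
        rw [Finset.ssubset_iff_of_subset]
        · exact ⟨x i, hmem, by simp⟩
        · intro t ht
          rw [Finset.mem_filter] at ht ⊢
          exact ⟨ht.1, hai.trans ht.2.1, ht.2.2⟩
      have h1 := ih _ hc1 a (x i) rfl hai.le ha (Or.inr (Or.inr ⟨i, rfl⟩))
      have h2 := ih _ hc2 (x i) b rfl hib.le (Or.inr (Or.inr ⟨i, rfl⟩)) hb
      rw [← intervalIntegral.integral_add_adjacent_intervals (i1 a (x i)) (i1 (x i) b),
        ← intervalIntegral.integral_add_adjacent_intervals (i2 a (x i)) (i2 (x i) b)]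
      exact add_le_add h1 h2
    · push Not at hex
      have ha1 : -1 ≤ a := by
        rcases ha with h | h | ⟨i, h⟩
        · exact h.ge
        · rw [h]; norm_num
        · rw [← h]; exact (hx1 i).1
      have hb1 : b ≤ 1 := by
        rcases hb with h | h | ⟨i, h⟩
        · rw [h]; norm_num
        · exact h.le
        · rw [← h]; exact (hx1 i).2
      by_cases hA : ∃ i, x i = a
      · by_cases hB : ∃ i, x i = b
        · exact inner hp q x hx hx1 f hf hlip h0 a b hA hB hlt
            (fun i hi => absurd hi.2 (not_lt.2 (hex i hi.1)))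
        · -- `b = 1` beyond all nodes
          have hbe : b = 1 := by
            rcases hb with h | h | h
            · linarith
            · exact h
            · exact absurd h hB
          have hall : ∀ i, x i ≤ a := by
            intro i
            by_contra hcon
            push Not at hcon
            have h2 := hex i hcon
            have h3 := (hx1 i).2
            exact hB ⟨i, by linarith⟩
          apply intervalIntegral.integral_mono_on hab (i1 a b) (i2 a b)
          intro s hs
          apply habs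
          exact outer q x hx hx1 f hf hlip h0 s ⟨ha1.trans hs.1, hs.2.trans hb1⟩
            (Or.inr fun i => (hall i).trans hs.1)
      · have hae : a = -1 := by
          rcases ha with h | h | h
          · exact h
          · linarith
          · exact absurd h hA
        have hall : ∀ i, b ≤ x i := by
          intro i
          have h3 := (hx1 i).1
          have h4 : a < x i := lt_of_le_of_ne (by linarith) (fun h => hA ⟨i, h.symm⟩)
          exact hex i h4
        apply intervalIntegral.integral_mono_on hab (i1 a b) (i2 a b)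
        intro s hs
        apply habs
        exact outer q x hx hx1 f hf hlip h0 s ⟨ha1.trans hs.1, hs.2.trans hb1⟩
          (Or.inl fun i => hs.2.trans (hall i))

/-- assembling the pieces, general even convex `Ψ` -/
theorem total_convex (Ψ : ℝ → ℝ) (hconv : ConvexOn ℝ Set.univ Ψ) (heven : ∀ t, Ψ (-t) = Ψ t)
    (q : ℕ) (x : Fin (q + 2) → ℝ) (hx : Function.Injective x)
    (hx1 : ∀ i, x i ∈ Set.Icc (-1 : ℝ) 1) (f : ℝ → ℝ)
    (hf : ContDiff ℝ ((q + 1 : ℕ) : WithTop ℕ∞) f)
    (hlip : LipschitzOnWith 1 (iteratedDeriv (q + 1) f) (Set.Icc (-1 : ℝ) 1))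
    (h0 : ∀ i, f (x i) = 0) (a b : ℝ) (hab : a ≤ b)
    (ha : a = -1 ∨ a = 1 ∨ ∃ i, x i = a) (hb : b = -1 ∨ b = 1 ∨ ∃ i, x i = b) :
    ∫ s in a..b, Ψ (deriv f s) ≤ ∫ s in a..b,
      Ψ (deriv (fun y => (∏ i, (y - x i)) / ((q + 2 : ℕ).factorial : ℝ)) s) := by
  set ω : ℝ → ℝ := fun y => (∏ i, (y - x i)) / ((q + 2 : ℕ).factorial : ℝ) with hω
  have hωc : ContDiff ℝ ((q + 1 : ℕ) : WithTop ℕ∞) ω := by
    rw [hω]
    apply ContDiff.div_const
    apply contDiff_prod
    intro i _
    fun_prop
  have hone : ((1 : ℕ) : WithTop ℕ∞) ≤ ((q + 1 : ℕ) : WithTop ℕ∞) := by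
    exact_mod_cast Nat.le_add_left 1 q
  have hf1 : ContDiff ℝ 1 f := by simpa using hf.of_le hone
  have hω1 : ContDiff ℝ 1 ω := by simpa using hωc.of_le hone
  have hf'c : Continuous (deriv f) := hf1.continuous_deriv le_rfl
  have hω'c : Continuous (deriv ω) := hω1.continuous_deriv le_rfl
  have hΨc : Continuous Ψ := by
    have := hconv.continuousOn isOpen_univ
    rwa [continuousOn_univ] at this
  obtain ⟨M1, hM1⟩ := (isCompact_Icc (a := a) (b := b)).exists_bound_of_continuousOn
    hf'c.continuousOn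
  obtain ⟨M2, hM2⟩ := (isCompact_Icc (a := a) (b := b)).exists_bound_of_continuousOn
    hω'c.continuousOn
  apply le_of_forall_pos_le_add
  intro ε' hε'
  set ε : ℝ := ε' / (2 * (b - a) + 1) with hε
  have hba : 0 ≤ b - a := by linarith
  have hε0 : 0 < ε := by positivity
  have hεe : 2 * (b - a) * ε ≤ ε' := by
    rw [hε, mul_div_assoc', div_le_iff₀ (by positivity)]
    nlinarith
  obtain ⟨φ, φ1, φ2, hp, hφ⟩ := approx Ψ hconv heven (max M1 M2) ε hε0
  have hφc := hp.c0
  have key := total hp q x hx hx1 f hf hlip h0 _ a b rfl hab ha hb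
  have j1 : IntervalIntegrable (fun s => φ (deriv f s)) volume a b :=
    (hφc.comp hf'c).intervalIntegrable _ _
  have j2 : IntervalIntegrable (fun s => φ (deriv ω s)) volume a b :=
    (hφc.comp hω'c).intervalIntegrable _ _
  have j3 : IntervalIntegrable (fun s => Ψ (deriv f s)) volume a b :=
    (hΨc.comp hf'c).intervalIntegrable _ _
  have j4 : IntervalIntegrable (fun s => Ψ (deriv ω s)) volume a b :=
    (hΨc.comp hω'c).intervalIntegrable _ _
  have h1 : ∫ s in a..b, Ψ (deriv f s) ≤ ∫ s in a..b, (φ (deriv f s) + (Ψ 0 + ε)) := by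
    apply intervalIntegral.integral_mono_on hab j3 (j1.add intervalIntegrable_const)
    intro s hs
    have := hφ (deriv f s) ((hM1 s hs).trans (le_max_left _ _))
    linarith [(abs_le.1 this).1]
  have h2 : ∫ s in a..b, (φ (deriv ω s) + (Ψ 0 - ε)) ≤ ∫ s in a..b, Ψ (deriv ω s) := by
    apply intervalIntegral.integral_mono_on hab (j2.add intervalIntegrable_const) j4
    intro s hs
    have := hφ (deriv ω s) ((hM2 s hs).trans (le_max_right _ _))
    linarith [(abs_le.1 this).2]
  rw [intervalIntegral.integral_add j1 intervalIntegrable_const,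
    intervalIntegral.integral_const, smul_eq_mul] at h1
  rw [intervalIntegral.integral_add j2 intervalIntegrable_const,
    intervalIntegral.integral_const, smul_eq_mul] at h2
  nlinarith

end Pool.Agent.H16.ND
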